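import Mathlib

/-!
# Partial summation of inverse powers against a counting function
-/

set_option autoImplicit false

open Finset

namespace Pool.Agent.GAPD

theorem inv_pow_sub_le (q k : ℕ) (hk : 1 ≤ k) :
    (1 / (k : ℝ) ^ q) - 1 / ((k : ℝ) + 1) ^ q ≤ q / (k : ℝ) ^ (q + 1) := by
  have hk' : (0 : ℝ) < k := by exact_mod_cast hk
  have h1 : 1 + (q : ℝ) * (-(1 / (k + 1))) ≤ (1 + (-(1 / ((k : ℝ) + 1)))) ^ q := by
    apply one_add_mul_le_pow
    have : 1 / ((k : ℝ) + 1) ≤ 1 := by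
      rw [div_le_one (by positivity)]; linarith
    linarith
  have h2 : 1 + (-(1 / ((k : ℝ) + 1))) = k / (k + 1) := by field_simp; ring
  rw [h2, div_pow] at h1
  have h3 : (1 / (k : ℝ) ^ q) - 1 / ((k : ℝ) + 1) ^ q =
      (1 / (k : ℝ) ^ q) * (1 - (k : ℝ) ^ q / ((k : ℝ) + 1) ^ q) := by
    field_simp
  rw [h3]
  have h4 : 1 - (k : ℝ) ^ q / ((k : ℝ) + 1) ^ q ≤ q / (k + 1) := by
    have : (q : ℝ) * (-(1 / (k + 1))) = - (q / (k + 1)) := by ring
    linarith
  calc (1 / (k : ℝ) ^ q) * (1 - (k : ℝ) ^ q / ((k : ℝ) + 1) ^ q)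
      ≤ (1 / (k : ℝ) ^ q) * (q / (k + 1)) := by gcongr
    _ ≤ (1 / (k : ℝ) ^ q) * (q / k) := by gcongr; linarith
    _ = q / (k : ℝ) ^ (q + 1) := by rw [pow_succ]; field_simp

/-- Partial summation. -/
theorem abel {ι : Type*} (T : Finset ι) (f : ι → ℕ) (q : ℕ)
    (H : ℕ) (hH : 1 ≤ H) :
    ∑ c ∈ T.filter (fun c => 1 ≤ f c ∧ f c ≤ H), (1 / (f c : ℝ) ^ q) ≤
      ((T.filter (fun c => 1 ≤ f c ∧ f c ≤ H)).card : ℝ) / (H : ℝ) ^ q +
      ∑ k ∈ Finset.Ico 1 H, ((T.filter (fun c => 1 ≤ f c ∧ f c ≤ k)).card : ℝ) *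
        (q / (k : ℝ) ^ (q + 1)) := by
  classical
  induction H, hH using Nat.le_induction with
  | base =>
    simp only [Finset.Ico_self, Finset.sum_empty, add_zero]
    rw [Finset.card_eq_sum_ones, Nat.cast_sum, Finset.sum_div]
    refine Finset.sum_le_sum fun c hc => ?_
    rw [Finset.mem_filter] at hc
    have : f c = 1 := by omega
    rw [this]; simp
  | succ n hn ih =>
    have hn' : (0 : ℝ) < n := by exact_mod_cast hn
    set A := T.filter (fun c => 1 ≤ f c ∧ f c ≤ n) with hA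
    set B := T.filter (fun c => 1 ≤ f c ∧ f c ≤ n + 1) with hB
    set S := T.filter (fun c => f c = n + 1) with hS
    have hdis : Disjoint A S := by
      rw [Finset.disjoint_left]
      intro c hc hc'
      rw [hA, Finset.mem_filter] at hc
      rw [hS, Finset.mem_filter] at hc'
      omega
    have hBu : B = A ∪ S := by
      ext c
      rw [hA, hB, hS, Finset.mem_union]
      simp only [Finset.mem_filter]
      constructor
      · rintro ⟨h1, h2⟩
        by_cases h : f c ≤ n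
        · left; exact ⟨h1, h2.1, h⟩
        · right; exact ⟨h1, by omega⟩
      · rintro (⟨h1, h2⟩ | ⟨h1, h2⟩)
        · exact ⟨h1, h2.1, by omega⟩
        · exact ⟨h1, by omega, by omega⟩
    have hcard : (B.card : ℝ) = A.card + S.card := by
      rw [hBu, Finset.card_union_of_disjoint hdis]; push_cast; ring
    rw [hBu, Finset.sum_union hdis, ← hBu]
    have hSsum : ∑ c ∈ S, (1 / (f c : ℝ) ^ q) = S.card * (1 / ((n : ℝ) + 1) ^ q) := by
      rw [Finset.card_eq_sum_ones, Nat.cast_sum, Finset.sum_mul]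
      refine Finset.sum_congr rfl fun c hc => ?_
      rw [hS, Finset.mem_filter] at hc
      rw [hc.2]; push_cast; ring
    rw [hSsum, Finset.sum_Ico_succ_top hn]
    have hkey := inv_pow_sub_le q n hn
    have hAn : (0 : ℝ) ≤ A.card := by positivity
    have h5 := mul_le_mul_of_nonneg_left hkey hAn
    have h6 : (S.card : ℝ) = B.card - A.card := by rw [hcard]; ring
    rw [h6]
    push_cast
    have h7 : (A.card : ℝ) / (n : ℝ) ^ q = A.card * (1 / (n : ℝ) ^ q) := by ring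
    have h8 : (B.card : ℝ) / ((n : ℝ) + 1) ^ q = B.card * (1 / ((n : ℝ) + 1) ^ q) := by ring
    rw [h7] at ih
    rw [h8]
    nlinarith [ih, h5]

theorem harm_le (H : ℕ) : ∑ k ∈ Finset.Ico 1 H, (1 / (k : ℝ)) ≤ 1 + Real.log H := by
  have h1 : ∑ k ∈ Finset.Ico 1 H, (1 / (k : ℝ)) ≤ ∑ k ∈ Finset.Icc 1 H, (1 / (k : ℝ)) := by
    apply Finset.sum_le_sum_of_subset_of_nonneg
    · intro k hk
      rw [Finset.mem_Ico] at hk
      rw [Finset.mem_Icc]; omega
    · intro k _ _; positivity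
  have h2 := harmonic_le_one_add_log H
  rw [harmonic_eq_sum_Icc] at h2
  push_cast at h2
  refine h1.trans (le_trans (le_of_eq ?_) h2)
  refine Finset.sum_congr rfl fun k _ => ?_
  rw [one_div]

theorem sq_sum_aux (n : ℕ) (hn : 1 ≤ n) :
    ∑ k ∈ Finset.Ico 1 (n + 1), (1 / (k : ℝ) ^ 2) ≤ 2 - 1 / (n : ℝ) := by
  induction n, hn using Nat.le_induction with
  | base => simp; norm_num
  | succ n hn ih =>
    have hn' : (0 : ℝ) < n := by exact_mod_cast hn
    rw [Finset.sum_Ico_succ_top (by omega)]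
    have h1 : 1 / ((n : ℝ) + 1) ^ 2 ≤ 1 / n - 1 / (n + 1) := by
      rw [div_sub_div _ _ (by positivity) (by positivity), div_le_div_iff₀ (by positivity) (by positivity)]
      nlinarith
    push_cast
    linarith

theorem sq_sum_le (H : ℕ) : ∑ k ∈ Finset.Ico 1 H, (1 / (k : ℝ) ^ 2) ≤ 2 := by
  rcases Nat.lt_or_ge H 2 with h | h
  · rw [Finset.Ico_eq_empty_of_le (by omega)]; simp
  · obtain ⟨n, rfl⟩ : ∃ n, H = n + 1 := ⟨H - 1, by omega⟩
    have := sq_sum_aux n (by omega)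
    have h2 : (0 : ℝ) ≤ 1 / (n : ℝ) := by positivity
    linarith

end Pool.Agent.GAPD
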