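import Pool.Agent.GAPD.Split

/-!
# There are few splitting vectors
-/

set_option autoImplicit false

open Module Finset ComplexConjugate

namespace Pool.Agent.GAPD

variable {d : ℕ}

theorem mem_VV_iff (v : Fin d → ℂ) (x : ℂ) : x ∈ VV v ↔ ∃ q : Fin d → ℚ, zq v q = x := by
  have : LinearMap.range (zq v) = VV v := by
    unfold zq VV
    exact Fintype.range_linearCombination ℚ v
  rw [← this]
  exact LinearMap.mem_range

theorem proj (v : Fin d → ℂ) (hv : LinearIndependent ℚ v) (w : ℂ) (hw : w ≠ 0)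
    (hs : du v w + dw v w = d) :
    ∃ N C : ℕ, 1 ≤ N ∧ ∀ c : Fin d → ℤ, ∃ a : Fin d → ℤ, zz v a ∈ par w ∧ nn a ≤ C * nn c ∧
      (N : ℂ) * zz v c - zz v a ∈ VV v ⊓ ort w := by
  classical
  have h1 : ∀ j : Fin d, ∃ q : Fin d → ℚ, zq v q ∈ par w ∧ v j - zq v q ∈ VV v ⊓ ort w := by
    intro j
    have hj : v j ∈ (VV v ⊓ par w) ⊔ (VV v ⊓ ort w) := by
      rw [split_eq v hv w hw hs]
      exact Submodule.subset_span ⟨j, rfl⟩
    obtain ⟨u, hu, s, hs', hus⟩ := Submodule.mem_sup.1 hj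
    obtain ⟨q, hq⟩ := (mem_VV_iff v u).1 hu.1
    refine ⟨q, by rw [hq]; exact hu.2, ?_⟩
    rw [hq, ← hus]
    simpa using hs'
  choose q hq1 hq2 using h1
  set N : ℕ := ∏ j, ∏ k, (q j k).den with hN
  have hNpos : 1 ≤ N := by
    rw [hN]
    refine Nat.one_le_iff_ne_zero.2 ?_
    rw [Finset.prod_ne_zero_iff]
    intro j _
    rw [Finset.prod_ne_zero_iff]
    intro k _
    exact (q j k).den_ne_zero
  have h2 : ∀ j k : Fin d, ∃ n : ℤ, (N : ℚ) * q j k = n := by
    intro j k
    have hdvd : (q j k).den ∣ N := by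
      refine (Finset.dvd_prod_of_mem (fun k => (q j k).den) (Finset.mem_univ k)).trans ?_
      exact Finset.dvd_prod_of_mem (fun j => ∏ k, (q j k).den) (Finset.mem_univ j)
    obtain ⟨m, hm⟩ := hdvd
    refine ⟨m * (q j k).num, ?_⟩
    rw [hm]
    push_cast
    have := Rat.mul_den_eq_num (q j k)
    calc ((q j k).den : ℚ) * m * q j k = m * (q j k * (q j k).den) := by ring
      _ = _ := by rw [this]
  choose n hn using h2
  refine ⟨N, ∑ j, ∑ k, (n j k).natAbs, hNpos, ?_⟩
  intro c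
  refine ⟨fun k => ∑ j, c j * n j k, ?_, ?_, ?_⟩
  · have h3 : zz v (fun k => ∑ j, c j * n j k) = ∑ j, ((c j : ℚ) * N) • zq v (q j) := by
      rw [← zq_int]
      have h4 : (fun k => (((∑ j, c j * n j k : ℤ)) : ℚ)) = ∑ j, ((c j : ℚ) * N) • q j := by
        funext k
        rw [Finset.sum_apply]
        push_cast
        refine Finset.sum_congr rfl fun j _ => ?_
        rw [Pi.smul_apply, smul_eq_mul, ← hn j k]
        ring
      rw [h4, map_sum]
      refine Finset.sum_congr rfl fun j _ => ?_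
      rw [map_smul]
    rw [h3]
    exact Submodule.sum_mem _ fun j _ => Submodule.smul_mem _ _ (hq1 j)
  · rw [nn_le_iff]
    intro k
    calc |∑ j, c j * n j k| ≤ ∑ j, |c j * n j k| := Finset.abs_sum_le_sum_abs _ _
      _ ≤ ∑ j, (nn c : ℤ) * ((n j k).natAbs : ℤ) := by
          refine Finset.sum_le_sum fun j _ => ?_
          rw [abs_mul, Int.abs_eq_natAbs (n j k)]
          exact mul_le_mul_of_nonneg_right ((nn_le_iff c _).1 le_rfl j) (by positivity)
      _ ≤ ∑ j, ∑ k, (nn c : ℤ) * ((n j k).natAbs : ℤ) := by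
          refine Finset.sum_le_sum fun j _ => ?_
          exact Finset.single_le_sum (f := fun k => (nn c : ℤ) * ((n j k).natAbs : ℤ))
            (fun _ _ => by positivity) (Finset.mem_univ k)
      _ = _ := by
          push_cast
          rw [Finset.sum_mul]
          refine Finset.sum_congr rfl fun j _ => ?_
          rw [Finset.sum_mul]
          refine Finset.sum_congr rfl fun k _ => ?_
          ring
  · have h3 : zz v (fun k => ∑ j, c j * n j k) = ∑ j, ((c j : ℚ) * N) • zq v (q j) := by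
      rw [← zq_int]
      have h4 : (fun k => (((∑ j, c j * n j k : ℤ)) : ℚ)) = ∑ j, ((c j : ℚ) * N) • q j := by
        funext k
        rw [Finset.sum_apply]
        push_cast
        refine Finset.sum_congr rfl fun j _ => ?_
        rw [Pi.smul_apply, smul_eq_mul, ← hn j k]
        ring
      rw [h4, map_sum]
      refine Finset.sum_congr rfl fun j _ => ?_
      rw [map_smul]
    have h5 : (N : ℂ) * zz v c - zz v (fun k => ∑ j, c j * n j k) =
        ∑ j, ((c j : ℚ) * N) • (v j - zq v (q j)) := by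
      rw [h3, zz, Finset.mul_sum, ← Finset.sum_sub_distrib]
      refine Finset.sum_congr rfl fun j _ => ?_
      rw [smul_sub, Rat.smul_def, Rat.smul_def]
      push_cast
      ring
    rw [h5]
    exact Submodule.sum_mem _ fun j _ => Submodule.smul_mem _ _ (hq2 j)

theorem TT_le (v : Fin d → ℂ) (hv : LinearIndependent ℚ v) (hex : NoField v) :
    ∃ C₀ : ℝ, 0 ≤ C₀ ∧ ∀ h : ℕ, 1 ≤ h → ((TT v h).card : ℝ) ≤ C₀ * (h : ℝ) ^ (d - 1) := by
  classical
  by_cases hne : ∃ c : Fin d → ℤ, c ≠ 0 ∧ du v (zz v c) + dw v (zz v c) = d ∧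
      ∃ b : Fin d → ℤ, b ≠ 0 ∧ zz v b ∈ ort (zz v c)
  swap
  · refine ⟨0, le_rfl, ?_⟩
    intro h _
    have : TT v h = ∅ := by
      rw [Finset.eq_empty_iff_forall_notMem]
      intro c hc
      unfold TT at hc
      rw [Finset.mem_filter] at hc
      exact hne ⟨c, hc.2⟩
    rw [this]; simp
  obtain ⟨c₀, hc₀, hs₀, b₀, hb₀, hb₀o⟩ := hne
  set w₀ := zz v c₀ with hw₀d
  have hw₀ : w₀ ≠ 0 := fun h => hc₀ (zz_eq_zero v hv c₀ h)
  have hs₀0 : zz v b₀ ≠ 0 := fun h => hb₀ (zz_eq_zero v hv b₀ h)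
  obtain ⟨N, C, hN, hproj⟩ := proj v hv w₀ hw₀ hs₀
  choose A hA1 hA2 hA3 using hproj
  have hN0 : (N : ℂ) ≠ 0 := by
    have : N ≠ 0 := by omega
    exact_mod_cast this
  have hdu : 1 ≤ du v w₀ := by
    unfold du
    refine Nat.one_le_iff_ne_zero.2 ?_
    rw [Ne, Submodule.finrank_eq_zero]
    intro hbot
    have : w₀ ∈ (VV v ⊓ par w₀ : Submodule ℚ ℂ) := ⟨zz_mem v c₀, par_self _⟩
    rw [hbot, Submodule.mem_bot] at this
    exact hw₀ this
  have hdw : 1 ≤ dw v w₀ := by
    unfold dw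
    refine Nat.one_le_iff_ne_zero.2 ?_
    rw [Ne, Submodule.finrank_eq_zero]
    intro hbot
    have : zz v b₀ ∈ (VV v ⊓ ort w₀ : Submodule ℚ ℂ) := ⟨zz_mem v b₀, hb₀o⟩
    rw [hbot, Submodule.mem_bot] at this
    exact hs₀0 this
  -- division by `N`
  have hdivN : ∀ (S : Submodule ℚ ℂ) (x : ℂ), (N : ℂ) * x ∈ S → x ∈ S := by
    intro S x hx
    have h1 := S.smul_mem ((N : ℚ)⁻¹) hx
    rw [Rat.smul_def] at h1
    push_cast at h1
    rwa [inv_mul_cancel_left₀ hN0] at h1
  refine ⟨3 ^ (d - 1) + (1 + 2 * C) ^ (du v w₀) * 5 ^ (dw v w₀ - 1), by positivity, ?_⟩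
  intro h hh
  have hh' : (1 : ℝ) ≤ h := by exact_mod_cast hh
  have hTmem : ∀ c ∈ TT v h, nn c ≤ h ∧ c ≠ 0 ∧ du v (zz v c) + dw v (zz v c) = d := by
    intro c hc
    unfold TT at hc
    rw [Finset.mem_filter, mem_bx] at hc
    exact ⟨hc.1, hc.2.1, hc.2.2.1⟩
  set I := (TT v h).image A with hI
  have hIcard : (I.card : ℝ) ≤ ((1 + 2 * C) * h) ^ (du v w₀) := by
    refine (packZ v hv (VV v ⊓ par w₀) I ?_ (C * h) 1 le_rfl ?_ ?_).trans ?_
    · intro a ha
      rw [hI, Finset.mem_image] at ha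
      obtain ⟨c, _, rfl⟩ := ha
      exact ⟨zz_mem v _, hA1 c⟩
    · intro a ha
      rw [hI, Finset.mem_image] at ha
      obtain ⟨c, hc, rfl⟩ := ha
      exact (hA2 c).trans (Nat.mul_le_mul_left _ (hTmem c hc).1)
    · intro a _ b _ hab
      exact nn_pos _ (sub_ne_zero.2 hab)
    · unfold du
      apply pow_le_pow_left₀ (by positivity)
      push_cast
      have : (0 : ℝ) ≤ C := by positivity
      nlinarith
  have hfib : ∀ a ∈ I, (((TT v h).filter (fun c => A c = a)).card : ℝ) ≤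
      (if a = 0 then (1 + 2 * (h : ℝ)) ^ (dw v w₀) else 0) + (1 + 4 * (h : ℝ)) ^ (dw v w₀ - 1) := by
    intro a ha
    set F := (TT v h).filter (fun c => A c = a) with hF
    have hFm : ∀ c ∈ F, nn c ≤ h ∧ c ≠ 0 ∧ du v (zz v c) + dw v (zz v c) = d ∧ A c = a := by
      intro c hc
      rw [hF, Finset.mem_filter] at hc
      obtain ⟨h1, h2, h3⟩ := hTmem c hc.1
      exact ⟨h1, h2, h3, hc.2⟩
    by_cases ha0 : a = 0
    · rw [if_pos ha0]
      have h1 : (F.card : ℝ) ≤ (1 + 2 * (h : ℝ)) ^ (dw v w₀) := by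
        refine (packZ v hv (VV v ⊓ ort w₀) F ?_ h 1 le_rfl ?_ ?_).trans ?_
        · intro c hc
          have h3 := hA3 c
          rw [(hFm c hc).2.2.2, ha0, zz_zero, sub_zero] at h3
          exact hdivN _ _ h3
        · intro c hc; exact (hFm c hc).1
        · intro a _ b _ hab
          exact nn_pos _ (sub_ne_zero.2 hab)
        · unfold dw
          apply le_of_eq
          push_cast
          rw [div_one]
      have h2 : (0 : ℝ) ≤ (1 + 4 * (h : ℝ)) ^ (dw v w₀ - 1) := by positivity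
      linarith
    · rw [if_neg ha0, zero_add]
      rcases F.eq_empty_or_nonempty with hFe | ⟨cs, hcs⟩
      · rw [hFe, Finset.card_empty]
        push_cast
        positivity
      set y : ℂ := zz v a / N with hy
      have hza : zz v a ≠ 0 := fun h => ha0 (zz_eq_zero v hv a h)
      have hy0 : y ≠ 0 := div_ne_zero hza hN0
      have hNy : (N : ℂ) * y = zz v a := by rw [hy]; field_simp
      have hzap : zz v a ∈ par w₀ := by
        have := hA1 cs
        rw [(hFm cs hcs).2.2.2] at this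
        exact this
      have hyp : y ∈ par w₀ := hdivN _ _ (by rw [hNy]; exact hzap)
      have hyV : y ∈ VV v := hdivN _ _ (by rw [hNy]; exact zz_mem v a)
      have hfr := finrank_JJ v hv hex w₀ hw₀ hs₀ (zz v b₀) hs₀0 (zz_mem v b₀) hb₀o y hyV hyp hy0
      have hJ : ∀ c ∈ F, zz v c - y ∈ JJ v w₀ y := by
        intro c hc
        obtain ⟨h1, h2, h3, h4⟩ := hFm c hc
        have h5 := hA3 c
        rw [h4] at h5
        have h6 : zz v c - y ∈ (VV v ⊓ ort w₀ : Submodule ℚ ℂ) := by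
          apply hdivN
          rw [mul_sub, hNy]
          exact h5
        have hzc : zz v c ≠ 0 := fun h => h2 (zz_eq_zero v hv c h)
        have h7 := nu_mem v hv w₀ (zz v c) hw₀ hzc hs₀ h3 y (zz v c - y) hyp h6.2 (by ring) hy0
        refine ⟨h6.1, h6.2, ?_⟩
        refine (Submodule.mem_map).2 ⟨(zz v c - y) / y, h7, ?_⟩
        show (zz v c - y) / y * y = zz v c - y
        field_simp
      have h8 : (((F.image (fun c => c - cs)).card : ℕ) : ℝ) ≤ (1 + 4 * (h : ℝ)) ^ (dw v w₀ - 1) := by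
        refine (packZ v hv (JJ v w₀ y) (F.image (fun c => c - cs)) ?_ (2 * h) 1 le_rfl ?_ ?_).trans ?_
        · intro e he
          rw [Finset.mem_image] at he
          obtain ⟨c, hc, rfl⟩ := he
          rw [zz_sub]
          have := Submodule.sub_mem _ (hJ c hc) (hJ cs hcs)
          rwa [sub_sub_sub_cancel_right] at this
        · intro e he
          rw [Finset.mem_image] at he
          obtain ⟨c, hc, rfl⟩ := he
          have h1 := nn_sub c cs
          have h2 := (hFm c hc).1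
          have h3 := (hFm cs hcs).1
          omega
        · intro a _ b _ hab
          exact nn_pos _ (sub_ne_zero.2 hab)
        · have h9 : (1 + 2 * ((2 * h : ℕ) : ℝ) / ((1 : ℕ) : ℝ)) = 1 + 4 * (h : ℝ) := by
            push_cast; ring
          rw [h9]
          apply pow_le_pow_right₀ (by linarith)
          omega
      rwa [Finset.card_image_of_injective _ (sub_left_injective)] at h8
  have hsum : ((TT v h).card : ℝ) ≤ (1 + 2 * (h : ℝ)) ^ (dw v w₀) +
      I.card * (1 + 4 * (h : ℝ)) ^ (dw v w₀ - 1) := by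
    have h1 : ((TT v h).card : ℝ) = ∑ a ∈ I, (((TT v h).filter (fun c => A c = a)).card : ℝ) := by
      have := Finset.card_eq_sum_card_image A (TT v h)
      rw [← hI] at this
      exact_mod_cast this
    rw [h1]
    refine (Finset.sum_le_sum hfib).trans ?_
    rw [Finset.sum_add_distrib, Finset.sum_const, nsmul_eq_mul]
    refine add_le_add ?_ le_rfl
    rw [Finset.sum_ite_eq']
    split_ifs
    · exact le_rfl
    · positivity
  refine hsum.trans ?_
  rw [add_mul]
  apply add_le_add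
  · have h1 : (1 + 2 * (h : ℝ)) ^ (dw v w₀) ≤ (3 * (h : ℝ)) ^ (d - 1) := by
      refine (pow_le_pow_left₀ (by positivity) (show 1 + 2 * (h : ℝ) ≤ 3 * h by linarith) _).trans ?_
      apply pow_le_pow_right₀ (by linarith)
      omega
    rw [mul_pow] at h1
    exact h1
  · have h1 : (1 + 4 * (h : ℝ)) ^ (dw v w₀ - 1) ≤ (5 * (h : ℝ)) ^ (dw v w₀ - 1) :=
      pow_le_pow_left₀ (by positivity) (by linarith) _
    calc (I.card : ℝ) * (1 + 4 * (h : ℝ)) ^ (dw v w₀ - 1)
        ≤ ((1 + 2 * C) * h) ^ (du v w₀) * (5 * (h : ℝ)) ^ (dw v w₀ - 1) := by gcongr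
      _ = (1 + 2 * C) ^ (du v w₀) * 5 ^ (dw v w₀ - 1) *
          ((h : ℝ) ^ (du v w₀) * (h : ℝ) ^ (dw v w₀ - 1)) := by
          rw [mul_pow, mul_pow]; ring
      _ = _ := by
          rw [← pow_add]
          congr 2
          omega

/-- The number of orthogonal pairs is `O(H^d)` outside the exceptional case. -/
theorem EE_good (v : Fin d → ℂ) (hv : LinearIndependent ℚ v) (hex : NoField v) :
    ∃ C : ℝ, 0 < C ∧ ∀ H : ℕ, 1 ≤ H → (EE v H : ℝ) ≤ C * (H : ℝ) ^ d := by
  obtain ⟨C₀, hC₀, hT⟩ := TT_le v hv hex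
  exact EE_lin v hv C₀ hC₀ hT

end Pool.Agent.GAPD
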