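import Pool.Agent.GAPD.Pack
import Pool.Agent.GAPD.Abel

/-!
# Orthogonal pairs of values of `zz` and reduced vectors
-/

set_option autoImplicit false

open Module Finset ComplexConjugate

namespace Pool.Agent.GAPD

/-- the real multiples of `w` -/
def par (w : ℂ) : Submodule ℚ ℂ where
  carrier := {x | (x * conj w).im = 0}
  add_mem' := by
    intro x y hx hy
    simp only [Set.mem_ofPred_eq] at hx hy ⊢
    rw [add_mul, Complex.add_im, hx, hy, add_zero]
  zero_mem' := by simp
  smul_mem' := by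
    intro r x hx
    simp only [Set.mem_ofPred_eq] at hx ⊢
    rw [Rat.smul_def, mul_assoc]
    have : ((r : ℂ)) = ((r : ℝ) : ℂ) := by push_cast; rfl
    rw [this, Complex.im_ofReal_mul, hx, mul_zero]

/-- the imaginary multiples of `w` -/
def ort (w : ℂ) : Submodule ℚ ℂ where
  carrier := {x | (x * conj w).re = 0}
  add_mem' := by
    intro x y hx hy
    simp only [Set.mem_ofPred_eq] at hx hy ⊢
    rw [add_mul, Complex.add_re, hx, hy, add_zero]
  zero_mem' := by simp
  smul_mem' := by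
    intro r x hx
    simp only [Set.mem_ofPred_eq] at hx ⊢
    rw [Rat.smul_def, mul_assoc]
    have : ((r : ℂ)) = ((r : ℝ) : ℂ) := by push_cast; rfl
    rw [this, Complex.re_ofReal_mul, hx, mul_zero]

theorem mem_par (x w : ℂ) : x ∈ par w ↔ (x * conj w).im = 0 := Iff.rfl
theorem mem_ort (x w : ℂ) : x ∈ ort w ↔ (x * conj w).re = 0 := Iff.rfl

theorem par_self (w : ℂ) : w ∈ par w := by
  rw [mem_par, Complex.mul_conj]; simp

theorem ort_comm (x w : ℂ) : x ∈ ort w ↔ w ∈ ort x := by
  rw [mem_ort, mem_ort]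
  simp only [Complex.mul_re, Complex.conj_re, Complex.conj_im]
  constructor <;> intro h <;> linarith

theorem par_of_mem (u w : ℂ) (hw : w ≠ 0) (h : u ∈ par w) : ∃ r : ℝ, u = r * w := by
  rw [mem_par] at h
  refine ⟨(u * conj w).re / Complex.normSq w, ?_⟩
  have hn : (Complex.normSq w : ℂ) ≠ 0 := by
    rw [Ne, Complex.ofReal_eq_zero, Complex.normSq_eq_zero]; exact hw
  have h1 : u * conj w = ((u * conj w).re : ℂ) := by
    apply Complex.ext
    · simp
    · rw [h]; simp
  push_cast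
  rw [div_mul_eq_mul_div, eq_div_iff hn, ← h1, ← Complex.mul_conj]
  ring

theorem ort_of_mem (u w : ℂ) (hw : w ≠ 0) (h : u ∈ ort w) : ∃ r : ℝ, u = r * (Complex.I * w) := by
  rw [mem_ort] at h
  refine ⟨(u * conj w).im / Complex.normSq w, ?_⟩
  have hn : (Complex.normSq w : ℂ) ≠ 0 := by
    rw [Ne, Complex.ofReal_eq_zero, Complex.normSq_eq_zero]; exact hw
  have h1 : u * conj w = ((u * conj w).im : ℂ) * Complex.I := by
    apply Complex.ext
    · rw [h]; simp
    · simp
  have h2 : u * (Complex.normSq w : ℂ) = ((u * conj w).im : ℂ) * (Complex.I * w) := by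
    rw [← Complex.mul_conj]
    calc u * (w * conj w) = (u * conj w) * w := by ring
      _ = (((u * conj w).im : ℂ) * Complex.I) * w := by rw [← h1]
      _ = _ := by ring
  push_cast
  rw [div_mul_eq_mul_div, eq_div_iff hn, h2]

theorem par_eq (u w : ℂ) (hu : u ≠ 0) (hw : w ≠ 0) (h : u ∈ par w) :
    par u = par w ∧ ort u = ort w := by
  obtain ⟨r, rfl⟩ := par_of_mem u w hw h
  have hr : r ≠ 0 := by rintro rfl; simp at hu
  constructor
  · ext x
    rw [mem_par, mem_par, map_mul, Complex.conj_ofReal,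
      show x * ((r : ℂ) * conj w) = (r : ℂ) * (x * conj w) by ring, Complex.im_ofReal_mul]
    simp [hr]
  · ext x
    rw [mem_ort, mem_ort, map_mul, Complex.conj_ofReal,
      show x * ((r : ℂ) * conj w) = (r : ℂ) * (x * conj w) by ring, Complex.re_ofReal_mul]
    simp [hr]

theorem ort_eq (u w : ℂ) (hu : u ≠ 0) (hw : w ≠ 0) (h : u ∈ ort w) :
    par u = ort w ∧ ort u = par w := by
  obtain ⟨r, rfl⟩ := ort_of_mem u w hw h
  have hr : r ≠ 0 := by rintro rfl; simp at hu
  constructor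
  · ext x
    rw [mem_par, mem_ort, map_mul, map_mul, Complex.conj_ofReal, Complex.conj_I,
      show x * ((r : ℂ) * (-Complex.I * conj w)) = (r : ℂ) * (-Complex.I * (x * conj w)) by ring,
      Complex.im_ofReal_mul]
    simp [hr]
    constructor <;> intro h9 <;> linarith
  · ext x
    rw [mem_par, mem_ort, map_mul, map_mul, Complex.conj_ofReal, Complex.conj_I,
      show x * ((r : ℂ) * (-Complex.I * conj w)) = (r : ℂ) * (-Complex.I * (x * conj w)) by ring,
      Complex.re_ofReal_mul]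
    simp [hr]

theorem par_inf_ort (w : ℂ) (hw : w ≠ 0) : par w ⊓ ort w = ⊥ := by
  rw [eq_bot_iff]
  intro x hx
  rw [Submodule.mem_inf, mem_par, mem_ort] at hx
  have : x * conj w = 0 := Complex.ext hx.2 hx.1
  rw [Submodule.mem_bot]
  rcases mul_eq_zero.1 this with h | h
  · exact h
  · exfalso; exact hw (by simpa using h)

variable {d : ℕ}

/-- the rational span -/
noncomputable def VV (v : Fin d → ℂ) : Submodule ℚ ℂ := Submodule.span ℚ (Set.range v)

instance (v : Fin d → ℂ) : Module.Finite ℚ (VV v) := by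
  unfold VV
  exact Module.Finite.span_of_finite ℚ (Set.finite_range v)

theorem zz_mem (v : Fin d → ℂ) (a : Fin d → ℤ) : zz v a ∈ VV v := by
  unfold zz VV
  refine Submodule.sum_mem _ fun j _ => ?_
  have : (a j : ℂ) * v j = (a j : ℚ) • v j := by
    rw [Rat.smul_def]; push_cast; rfl
  rw [this]
  exact Submodule.smul_mem _ _ (Submodule.subset_span ⟨j, rfl⟩)

theorem finrank_VV (v : Fin d → ℂ) (hv : LinearIndependent ℚ v) : finrank ℚ (VV v) = d := by
  unfold VV
  rw [finrank_span_eq_card hv, Fintype.card_fin]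

instance (v : Fin d → ℂ) (S : Submodule ℚ ℂ) : Module.Finite ℚ (VV v ⊓ S : Submodule ℚ ℂ) :=
  Submodule.finiteDimensional_inf_left _ _

/-- dimension of the part of the span on the real line through `w` -/
noncomputable def du (v : Fin d → ℂ) (w : ℂ) : ℕ := finrank ℚ (VV v ⊓ par w : Submodule ℚ ℂ)

/-- dimension of the part of the span on the line through `i w` -/
noncomputable def dw (v : Fin d → ℂ) (w : ℂ) : ℕ := finrank ℚ (VV v ⊓ ort w : Submodule ℚ ℂ)

theorem du_add_dw (v : Fin d → ℂ) (hv : LinearIndependent ℚ v) (w : ℂ) (hw : w ≠ 0) :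
    du v w + dw v w ≤ d := by
  have h1 := Submodule.finrank_sup_add_finrank_inf_eq (VV v ⊓ par w) (VV v ⊓ ort w)
  have h2 : (VV v ⊓ par w) ⊓ (VV v ⊓ ort w) = ⊥ := by
    rw [eq_bot_iff, ← par_inf_ort w hw]
    intro x hx
    exact ⟨hx.1.2, hx.2.2⟩
  rw [h2, finrank_bot, add_zero] at h1
  have h3 : finrank ℚ ((VV v ⊓ par w) ⊔ (VV v ⊓ ort w) : Submodule ℚ ℂ) ≤ finrank ℚ (VV v) :=
    Submodule.finrank_mono (sup_le inf_le_left inf_le_left)
  rw [finrank_VV v hv] at h3
  unfold du dw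
  omega

/-- reduced vectors -/
def red (v : Fin d → ℂ) (c : Fin d → ℤ) : Prop :=
  c ≠ 0 ∧ ∀ c' : Fin d → ℤ, c' ≠ 0 → (zz v c' ∈ par (zz v c) ∨ zz v c' ∈ ort (zz v c)) → nn c ≤ nn c'

theorem exists_red (v : Fin d → ℂ) (hv : LinearIndependent ℚ v) (a : Fin d → ℤ) (ha : a ≠ 0) :
    ∃ c, red v c ∧ nn c ≤ nn a ∧
      ((par (zz v c) = par (zz v a) ∧ ort (zz v c) = ort (zz v a)) ∨
       (par (zz v c) = ort (zz v a) ∧ ort (zz v c) = par (zz v a))) := by
  classical
  have hza : zz v a ≠ 0 := fun h => ha (zz_eq_zero v hv a h)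
  let Q : ℕ → Prop := fun n => ∃ c : Fin d → ℤ, c ≠ 0 ∧
    (zz v c ∈ par (zz v a) ∨ zz v c ∈ ort (zz v a)) ∧ nn c = n
  have hQ : ∃ n, Q n := ⟨nn a, a, ha, Or.inl (par_self _), rfl⟩
  obtain ⟨c, hc, hc2, hc3⟩ := Nat.find_spec hQ
  have hmin : ∀ c' : Fin d → ℤ, c' ≠ 0 → (zz v c' ∈ par (zz v a) ∨ zz v c' ∈ ort (zz v a)) →
      nn c ≤ nn c' := by
    intro c' h1 h2
    rw [hc3]
    exact Nat.find_min' hQ ⟨c', h1, h2, rfl⟩
  have hzc : zz v c ≠ 0 := fun h => hc (zz_eq_zero v hv c h)
  have hca : nn c ≤ nn a := hmin a ha (Or.inl (par_self _))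
  rcases hc2 with h | h
  · obtain ⟨h1, h2⟩ := par_eq _ _ hzc hza h
    refine ⟨c, ⟨hc, ?_⟩, hca, Or.inl ⟨h1, h2⟩⟩
    intro c' h3 h4
    rw [h1, h2] at h4
    exact hmin c' h3 h4
  · obtain ⟨h1, h2⟩ := ort_eq _ _ hzc hza h
    refine ⟨c, ⟨hc, ?_⟩, hca, Or.inr ⟨h1, h2⟩⟩
    intro c' h3 h4
    rw [h1, h2] at h4
    exact hmin c' h3 h4.symm

/-- the number of orthogonal pairs in the box -/
noncomputable def EE (v : Fin d → ℂ) (H : ℕ) : ℕ := by
  classical
  exact ((bx d H ×ˢ bx d H).filter (fun p => zz v p.1 ∈ ort (zz v p.2))).card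

/-- the reduced vectors used in the count -/
noncomputable def RR (v : Fin d → ℂ) (H : ℕ) : Finset (Fin d → ℤ) := by
  classical
  exact (bx d H).filter (fun c => red v c ∧ ∃ b : Fin d → ℤ, b ≠ 0 ∧ zz v b ∈ ort (zz v c))

theorem EE_le (v : Fin d → ℂ) (hv : LinearIndependent ℚ v) (H : ℕ) (hH : 1 ≤ H) :
    (EE v H : ℝ) ≤ 2 * (2 * H + 1) ^ d +
      2 * ∑ c ∈ RR v H, (3 * H / (nn c : ℝ)) ^ (du v (zz v c) + dw v (zz v c)) := by
  classical
  set L : (Fin d → ℤ) → Finset (Fin d → ℤ) := fun c => (bx d H).filter (fun a => zz v a ∈ par (zz v c)) with hL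
  set O : (Fin d → ℤ) → Finset (Fin d → ℤ) := fun c => (bx d H).filter (fun a => zz v a ∈ ort (zz v c)) with hO
  have hsub : (bx d H ×ˢ bx d H).filter (fun p => zz v p.1 ∈ ort (zz v p.2)) ⊆
      (({0} : Finset (Fin d → ℤ)) ×ˢ bx d H ∪ bx d H ×ˢ ({0} : Finset (Fin d → ℤ))) ∪
        (RR v H).biUnion (fun c => L c ×ˢ O c ∪ O c ×ˢ L c) := by
    rintro ⟨a, b⟩ hab
    rw [Finset.mem_filter, Finset.mem_product] at hab
    obtain ⟨⟨ha, hb⟩, hab⟩ := hab
    simp only at ha hb hab
    rw [Finset.mem_union]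
    by_cases ha0 : a = 0
    · left; rw [Finset.mem_union]; left
      rw [Finset.mem_product]; exact ⟨by simp [ha0], hb⟩
    by_cases hb0 : b = 0
    · left; rw [Finset.mem_union]; right
      rw [Finset.mem_product]; exact ⟨ha, by simp [hb0]⟩
    right
    rw [Finset.mem_biUnion]
    obtain ⟨c, hc, hca, hc2⟩ := exists_red v hv a ha0
    have hcb : c ∈ bx d H := by
      rw [mem_bx] at ha ⊢; omega
    have hba : zz v b ∈ ort (zz v a) := (ort_comm _ _).1 hab
    rcases hc2 with ⟨h1, h2⟩ | ⟨h1, h2⟩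
    · refine ⟨c, ?_, ?_⟩
      · unfold RR
        rw [Finset.mem_filter]
        exact ⟨hcb, hc, b, hb0, by rw [h2]; exact hba⟩
      · rw [Finset.mem_union]; left
        rw [Finset.mem_product]
        constructor
        · simp only [hL, Finset.mem_filter]
          exact ⟨ha, by rw [h1]; exact par_self _⟩
        · simp only [hO, Finset.mem_filter]
          exact ⟨hb, by rw [h2]; exact hba⟩
    · refine ⟨c, ?_, ?_⟩
      · unfold RR
        rw [Finset.mem_filter]
        exact ⟨hcb, hc, a, ha0, by rw [h2]; exact par_self _⟩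
      · rw [Finset.mem_union]; right
        rw [Finset.mem_product]
        constructor
        · simp only [hO, Finset.mem_filter]
          exact ⟨ha, by rw [h2]; exact par_self _⟩
        · simp only [hL, Finset.mem_filter]
          exact ⟨hb, by rw [h1]; exact hba⟩
  have hcard := Finset.card_le_card hsub
  have hb1 : ((({0} : Finset (Fin d → ℤ)) ×ˢ bx d H ∪ bx d H ×ˢ ({0} : Finset (Fin d → ℤ)))).card ≤
      2 * (2 * H + 1) ^ d := by
    refine (Finset.card_union_le _ _).trans ?_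
    rw [Finset.card_product, Finset.card_product, card_bx, Finset.card_singleton]
    omega
  have hb2 : ((RR v H).biUnion (fun c => L c ×ˢ O c ∪ O c ×ˢ L c)).card ≤
      ∑ c ∈ RR v H, 2 * ((L c).card * (O c).card) := by
    refine Finset.card_biUnion_le.trans ?_
    refine Finset.sum_le_sum fun c _ => ?_
    refine (Finset.card_union_le _ _).trans ?_
    rw [Finset.card_product, Finset.card_product]
    have : (O c).card * (L c).card = (L c).card * (O c).card := Nat.mul_comm _ _
    omega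
  have hEE : EE v H ≤ 2 * (2 * H + 1) ^ d + ∑ c ∈ RR v H, 2 * ((L c).card * (O c).card) := by
    have h0 : EE v H = ((bx d H ×ˢ bx d H).filter (fun p => zz v p.1 ∈ ort (zz v p.2))).card := by
      unfold EE
      congr
    rw [h0]
    refine hcard.trans ((Finset.card_union_le _ _).trans ?_)
    exact Nat.add_le_add hb1 hb2
  have hEE' : (EE v H : ℝ) ≤ 2 * (2 * H + 1) ^ d +
      ∑ c ∈ RR v H, 2 * (((L c).card : ℝ) * (O c).card) := by
    exact_mod_cast hEE
  refine hEE'.trans ?_
  rw [Finset.mul_sum]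
  refine add_le_add_right ?_ _
  refine Finset.sum_le_sum fun c hc => ?_
  unfold RR at hc
  rw [Finset.mem_filter, mem_bx] at hc
  obtain ⟨hcH, hcr, -⟩ := hc
  have hc1 : 1 ≤ nn c := nn_pos c hcr.1
  have hc1' : (1 : ℝ) ≤ nn c := by exact_mod_cast hc1
  have hcH' : (nn c : ℝ) ≤ H := by exact_mod_cast hcH
  have hbase : (1 + 2 * H / (nn c : ℝ)) ≤ 3 * H / (nn c : ℝ) := by
    rw [le_div_iff₀ (by positivity)]
    field_simp
    linarith
  have hL1 : ((L c).card : ℝ) ≤ (3 * H / (nn c : ℝ)) ^ (du v (zz v c)) := by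
    refine (packZ v hv (VV v ⊓ par (zz v c)) (L c) ?_ H (nn c) hc1 ?_ ?_).trans ?_
    · intro a ha
      simp only [hL, Finset.mem_filter] at ha
      exact ⟨zz_mem v a, ha.2⟩
    · intro a ha
      simp only [hL, Finset.mem_filter, mem_bx] at ha
      exact ha.1
    · intro a ha b hb hab
      simp only [hL, Finset.mem_filter] at ha hb
      refine hcr.2 (a - b) (sub_ne_zero.2 hab) (Or.inl ?_)
      rw [zz_sub]
      exact Submodule.sub_mem _ ha.2 hb.2
    · unfold du
      exact pow_le_pow_left₀ (by positivity) hbase _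
  have hO1 : ((O c).card : ℝ) ≤ (3 * H / (nn c : ℝ)) ^ (dw v (zz v c)) := by
    refine (packZ v hv (VV v ⊓ ort (zz v c)) (O c) ?_ H (nn c) hc1 ?_ ?_).trans ?_
    · intro a ha
      simp only [hO, Finset.mem_filter] at ha
      exact ⟨zz_mem v a, ha.2⟩
    · intro a ha
      simp only [hO, Finset.mem_filter, mem_bx] at ha
      exact ha.1
    · intro a ha b hb hab
      simp only [hO, Finset.mem_filter] at ha hb
      refine hcr.2 (a - b) (sub_ne_zero.2 hab) (Or.inr ?_)
      rw [zz_sub]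
      exact Submodule.sub_mem _ ha.2 hb.2
    · unfold dw
      exact pow_le_pow_left₀ (by positivity) hbase _
  rw [pow_add]
  have : ((L c).card : ℝ) * (O c).card ≤
      (3 * H / (nn c : ℝ)) ^ (du v (zz v c)) * (3 * H / (nn c : ℝ)) ^ (dw v (zz v c)) :=
    mul_le_mul hL1 hO1 (by positivity) (by positivity)
  linarith

end Pool.Agent.GAPD
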