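import Pool.Agent.GAPD.Cnt

/-!
# Pinned distances in generalised arithmetic progressions
-/

set_option autoImplicit false

open Module Finset ComplexConjugate

namespace Pool.Agent.GAPD

/-- Cauchy-Schwarz for the fibres of a map. -/
theorem card_sq_le {α β : Type*} [DecidableEq α] [DecidableEq β] (S : Finset α) (f : α → β) :
    (S.card : ℝ) ^ 2 ≤
      ((S.image f).card : ℝ) * (((S ×ˢ S).filter (fun p => f p.1 = f p.2)).card : ℝ) := by
  set n : β → ℝ := fun b => ((S.filter (fun a => f a = b)).card : ℝ) with hn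
  have h1 : (S.card : ℝ) = ∑ b ∈ S.image f, n b := by
    have := Finset.card_eq_sum_card_image f S
    show (S.card : ℝ) = ∑ b ∈ S.image f, ((S.filter (fun a => f a = b)).card : ℝ)
    exact_mod_cast this
  have h2 : (((S ×ˢ S).filter (fun p => f p.1 = f p.2)).card : ℝ) = ∑ b ∈ S.image f, n b ^ 2 := by
    have h3 : ((S ×ˢ S).filter (fun p => f p.1 = f p.2)).card =
        ∑ b ∈ S.image f, (((S ×ˢ S).filter (fun p => f p.1 = f p.2)).filter (fun p => f p.1 = b)).card := by
      apply Finset.card_eq_sum_card_fiberwise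
      intro p hp
      rw [Finset.mem_coe, Finset.mem_filter, Finset.mem_product] at hp
      exact Finset.mem_coe.2 (Finset.mem_image_of_mem f hp.1.1)
    rw [h3]
    push_cast
    refine Finset.sum_congr rfl fun b _ => ?_
    have h4 : ((S ×ˢ S).filter (fun p => f p.1 = f p.2)).filter (fun p => f p.1 = b) =
        (S.filter (fun a => f a = b)) ×ˢ (S.filter (fun a => f a = b)) := by
      ext p
      simp only [Finset.mem_filter, Finset.mem_product]
      constructor
      · rintro ⟨⟨⟨h1, h2⟩, h3⟩, h4⟩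
        exact ⟨⟨h1, h4⟩, h2, by rw [← h3]; exact h4⟩
      · rintro ⟨⟨h1, h4⟩, h2, h5⟩
        exact ⟨⟨⟨h1, h2⟩, by rw [h4, h5]⟩, h4⟩
    rw [h4, Finset.card_product, hn]
    push_cast
    ring
  rw [h1, h2]
  exact sq_sum_le_card_mul_sum_sq

variable {d : ℕ}

/-- The number of pairs of points of `P` at the same distance from `x`. -/
theorem pairs_le (v : Fin d → ℂ) (H : ℕ) (x₀ t x : ℂ) (ht : t ≠ 0) (S : Finset ℂ)
    (hx : ∃ a : Fin d → ℤ, nn a ≤ H ∧ x = x₀ + t * zz v a)
    (hS : ∀ y ∈ S, ∃ a : Fin d → ℤ, nn a ≤ H ∧ y = x₀ + t * zz v a) :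
    ((S ×ˢ S).filter (fun p => dist x p.1 = dist x p.2)).card ≤ EE v (4 * H) := by
  classical
  obtain ⟨ax, hax, hax2⟩ := hx
  have hS' : ∀ y : ℂ, ∃ a : Fin d → ℤ, y ∈ S → (nn a ≤ H ∧ y = x₀ + t * zz v a) := by
    intro y
    by_cases hy : y ∈ S
    · obtain ⟨a, ha⟩ := hS y hy
      exact ⟨a, fun _ => ha⟩
    · exact ⟨0, fun h => absurd h hy⟩
  choose A hA using hS'
  have h0 : EE v (4 * H) = ((bx d (4 * H) ×ˢ bx d (4 * H)).filter
      (fun p => zz v p.1 ∈ ort (zz v p.2))).card := by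
    unfold EE; congr
  rw [h0]
  refine Finset.card_le_card_of_injOn
    (fun p => ((ax - A p.1) + (ax - A p.2), (ax - A p.1) - (ax - A p.2))) ?_ ?_
  · intro p hp
    rw [Finset.mem_coe, Finset.mem_filter, Finset.mem_product] at hp
    obtain ⟨⟨hp1, hp2⟩, hp3⟩ := hp
    obtain ⟨ha1, ha1'⟩ := hA p.1 hp1
    obtain ⟨ha2, ha2'⟩ := hA p.2 hp2
    rw [Finset.mem_coe, Finset.mem_filter, Finset.mem_product, mem_bx, mem_bx]
    have e1 := nn_sub ax (A p.1)
    have e2 := nn_sub ax (A p.2)
    have e3 := nn_add (ax - A p.1) (ax - A p.2)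
    have e4 := nn_sub (ax - A p.1) (ax - A p.2)
    refine ⟨⟨by simp only; omega, by simp only; omega⟩, ?_⟩
    simp only
    rw [zz_add, zz_sub v (ax - A p.1) (ax - A p.2), mem_ort]
    set α := zz v (ax - A p.1) with hα
    set β := zz v (ax - A p.2) with hβ
    have h1 : x - p.1 = t * α := by
      rw [hα, zz_sub, hax2]
      conv_lhs => rw [ha1']
      ring
    have h2 : x - p.2 = t * β := by
      rw [hβ, zz_sub, hax2]
      conv_lhs => rw [ha2']
      ring
    rw [dist_eq_norm, dist_eq_norm, h1, h2, norm_mul, norm_mul] at hp3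
    have ht' : ‖t‖ ≠ 0 := norm_ne_zero_iff.2 ht
    have h3 : ‖α‖ = ‖β‖ := mul_left_cancel₀ ht' hp3
    have h4 : Complex.normSq α = Complex.normSq β := by
      rw [Complex.normSq_eq_norm_sq, Complex.normSq_eq_norm_sq, h3]
    rw [Complex.normSq_apply, Complex.normSq_apply] at h4
    simp only [map_sub, Complex.mul_re, Complex.add_re, Complex.add_im, Complex.sub_re,
      Complex.sub_im, Complex.conj_re, Complex.conj_im]
    linarith
  · intro p hp p' hp' hpp
    rw [Finset.mem_coe, Finset.mem_filter, Finset.mem_product] at hp hp'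
    obtain ⟨⟨hp1, hp2⟩, -⟩ := hp
    obtain ⟨⟨hp1', hp2'⟩, -⟩ := hp'
    simp only [Prod.mk.injEq] at hpp
    obtain ⟨h1, h2⟩ := hpp
    have h3 : A p.1 = A p'.1 := by
      funext j
      have e1 := congrFun h1 j
      have e2 := congrFun h2 j
      simp only [Pi.add_apply, Pi.sub_apply] at e1 e2
      omega
    have h4 : A p.2 = A p'.2 := by
      funext j
      have e1 := congrFun h1 j
      have e2 := congrFun h2 j
      simp only [Pi.add_apply, Pi.sub_apply] at e1 e2
      omega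
    apply Prod.ext
    · rw [(hA p.1 hp1).2, (hA p'.1 hp1').2, h3]
    · rw [(hA p.2 hp2).2, (hA p'.2 hp2').2, h4]

/-- Every point of a box sees linearly many distances, outside the exceptional case. -/
theorem gap_pinned (v : Fin d → ℂ) (hv : LinearIndependent ℚ v) (hex : NoField v) :
    ∃ c : ℝ, 0 < c ∧ ∀ H : ℕ, 1 ≤ H → ∀ (x₀ t x : ℂ) (P : Finset ℂ), 2 ≤ P.card →
      (∀ y ∈ insert x P, ∃ a : Fin d → ℤ, nn a ≤ H ∧ y = x₀ + t * zz v a) →
      c * (P.card : ℝ) ^ 2 / (H : ℝ) ^ d ≤ (((P.erase x).image (fun y => dist x y)).card : ℝ) := by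
  classical
  obtain ⟨C, hC, hE⟩ := EE_good v hv hex
  refine ⟨1 / (4 * (C * 4 ^ d)), by positivity, ?_⟩
  intro H hH x₀ t x P hP hbox
  have hH' : (1 : ℝ) ≤ H := by exact_mod_cast hH
  have ht : t ≠ 0 := by
    rintro rfl
    obtain ⟨y, hy, y', hy', hne⟩ := Finset.one_lt_card.1 (by omega : 1 < P.card)
    obtain ⟨a, -, ha⟩ := hbox y (Finset.mem_insert_of_mem hy)
    obtain ⟨a', -, ha'⟩ := hbox y' (Finset.mem_insert_of_mem hy')
    apply hne
    rw [ha, ha']; ring
  set S := P.erase x with hS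
  have hSc : (P.card : ℝ) / 2 ≤ S.card := by
    have h1 : P.card ≤ S.card + 1 := by
      rw [hS]
      have := Finset.pred_card_le_card_erase (s := P) (a := x)
      omega
    have h2 : P.card ≤ 2 * S.card := by omega
    have h3 : (P.card : ℝ) ≤ 2 * S.card := by exact_mod_cast h2
    linarith
  have h1 := card_sq_le S (fun y => dist x y)
  have h2 := pairs_le v H x₀ t x ht S (hbox x (Finset.mem_insert_self _ _))
    (fun y hy => hbox y (Finset.mem_insert_of_mem (Finset.mem_of_mem_erase hy)))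
  have h3 := hE (4 * H) (by omega)
  have h2' : (((S ×ˢ S).filter (fun p => dist x p.1 = dist x p.2)).card : ℝ) ≤ C * (4 * H) ^ d := by
    refine le_trans ?_ (h3.trans (le_of_eq ?_))
    · exact_mod_cast h2
    · push_cast; ring
  set D : ℝ := ((S.image (fun y => dist x y)).card : ℝ) with hD
  have hD0 : 0 ≤ D := by positivity
  have h4 : (S.card : ℝ) ^ 2 ≤ D * (C * (4 * H) ^ d) := h1.trans (by gcongr)
  have h5 : ((P.card : ℝ) / 2) ^ 2 ≤ D * (C * (4 * H) ^ d) :=
    (pow_le_pow_left₀ (by positivity) hSc 2).trans h4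
  rw [div_mul_eq_mul_div, one_mul, div_div, div_le_iff₀ (by positivity)]
  rw [mul_pow] at h5
  nlinarith [h5]

end Pool.Agent.GAPD
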