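import Mathlib

/-!
# Packing: separated sets of integer vectors in a rational subspace
-/

set_option autoImplicit false

open Metric Module MeasureTheory ENNReal Set Finset
open scoped Function

namespace Pool.Agent.GAPD

/-- Volume packing in a finite-dimensional real normed space. -/
theorem pack {E : Type*} [NormedAddCommGroup E] [NormedSpace ℝ E] [FiniteDimensional ℝ E]
    (s : Finset E) (R h : ℝ) (hR : 0 ≤ R) (hh : 0 < h) (hs : ∀ c ∈ s, ‖c‖ ≤ R)
    (hsep : ∀ c ∈ s, ∀ d ∈ s, c ≠ d → h ≤ ‖c - d‖) :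
    (s.card : ℝ) ≤ (1 + 2 * R / h) ^ finrank ℝ E := by
  borelize E
  let μ : Measure E := Measure.addHaar
  set δ : ℝ := h / 2 with hδ
  set ρ : ℝ := R + h / 2 with hρ
  have δpos : 0 < δ := by positivity
  have ρpos : 0 < ρ := by positivity
  set A := ⋃ c ∈ s, ball (c : E) δ with hA
  have D : Set.Pairwise (s : Set E) (Disjoint on fun c => ball (c : E) δ) := by
    rintro c hc d hd hcd
    apply ball_disjoint_ball
    rw [dist_eq_norm]
    have := hsep c hc d hd hcd
    rw [hδ]; linarith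
  have A_subset : A ⊆ ball (0 : E) ρ := by
    refine iUnion₂_subset fun x hx => ?_
    apply ball_subset_ball'
    rw [dist_zero_right]
    have := hs x hx
    rw [hδ, hρ]; linarith
  have I :
    (s.card : ℝ≥0∞) * ENNReal.ofReal (δ ^ finrank ℝ E) * μ (ball 0 1) ≤
      ENNReal.ofReal (ρ ^ finrank ℝ E) * μ (ball 0 1) :=
    calc
      (s.card : ℝ≥0∞) * ENNReal.ofReal (δ ^ finrank ℝ E) * μ (ball 0 1) = μ A := by
        rw [hA, measure_biUnion_finset D fun c _ => measurableSet_ball]
        simp only [μ.addHaar_ball_of_pos _ δpos]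
        simp only [Finset.sum_const, nsmul_eq_mul, mul_assoc]
      _ ≤ μ (ball (0 : E) ρ) := measure_mono A_subset
      _ = ENNReal.ofReal (ρ ^ finrank ℝ E) * μ (ball 0 1) := by
        simp only [μ.addHaar_ball_of_pos _ ρpos]
  have J : (s.card : ℝ≥0∞) * ENNReal.ofReal (δ ^ finrank ℝ E) ≤ ENNReal.ofReal (ρ ^ finrank ℝ E) :=
    (ENNReal.mul_le_mul_iff_left (measure_ball_pos _ _ zero_lt_one).ne' measure_ball_lt_top.ne).1 I
  have K : (s.card : ℝ) * δ ^ finrank ℝ E ≤ ρ ^ finrank ℝ E := by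
    have := ENNReal.toReal_le_of_le_ofReal (pow_nonneg ρpos.le _) J
    rw [ENNReal.toReal_mul, ENNReal.toReal_ofReal (by positivity)] at this
    simpa using this
  have h2 : (1 + 2 * R / h) = ρ / δ := by
    rw [hρ, hδ]; field_simp; ring
  rw [h2, div_pow, le_div_iff₀ (by positivity)]
  exact K

variable {d : ℕ}

/-- the linear form `∑ a_j v_j` on integer vectors -/
def zz (v : Fin d → ℂ) (a : Fin d → ℤ) : ℂ := ∑ j, (a j : ℂ) * v j

/-- the sup norm of an integer vector as a natural number -/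
def nn (a : Fin d → ℤ) : ℕ := Finset.univ.sup (fun j => (a j).natAbs)

theorem nn_le_iff (a : Fin d → ℤ) (H : ℕ) : nn a ≤ H ↔ ∀ j, |a j| ≤ (H : ℤ) := by
  unfold nn
  rw [Finset.sup_le_iff]
  constructor
  · intro h j
    have := h j (Finset.mem_univ _)
    rw [Int.abs_eq_natAbs]
    exact_mod_cast this
  · intro h j _
    have := h j
    rw [Int.abs_eq_natAbs] at this
    exact_mod_cast this

theorem nn_zero : nn (0 : Fin d → ℤ) = 0 := by
  have : nn (0 : Fin d → ℤ) ≤ 0 := by rw [nn_le_iff]; intro j; simp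
  omega

theorem nn_eq_zero (a : Fin d → ℤ) (h : nn a = 0) : a = 0 := by
  have h1 : nn a ≤ 0 := by omega
  rw [nn_le_iff] at h1
  funext j
  have := h1 j
  simpa using this

theorem nn_pos (a : Fin d → ℤ) (h : a ≠ 0) : 1 ≤ nn a := by
  by_contra hc
  exact h (nn_eq_zero a (by omega))

theorem nn_sub (a b : Fin d → ℤ) : nn (a - b) ≤ nn a + nn b := by
  rw [nn_le_iff]
  intro j
  have ha := (nn_le_iff a _).1 le_rfl j
  have hb := (nn_le_iff b _).1 le_rfl j
  push_cast
  calc |(a - b) j| = |a j - b j| := rfl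
    _ ≤ |a j| + |b j| := abs_sub _ _
    _ ≤ _ := add_le_add ha hb

theorem nn_add (a b : Fin d → ℤ) : nn (a + b) ≤ nn a + nn b := by
  rw [nn_le_iff]
  intro j
  have ha := (nn_le_iff a _).1 le_rfl j
  have hb := (nn_le_iff b _).1 le_rfl j
  push_cast
  calc |(a + b) j| = |a j + b j| := rfl
    _ ≤ |a j| + |b j| := abs_add_le _ _
    _ ≤ _ := add_le_add ha hb

/-- the box of integer vectors of sup norm at most `H` -/
noncomputable def bx (d H : ℕ) : Finset (Fin d → ℤ) := Fintype.piFinset (fun _ => Finset.Icc (-(H : ℤ)) H)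

theorem mem_bx (H : ℕ) (a : Fin d → ℤ) : a ∈ bx d H ↔ nn a ≤ H := by
  unfold bx
  rw [Fintype.mem_piFinset, nn_le_iff]
  constructor
  · intro h j
    have := h j
    rw [Finset.mem_Icc] at this
    exact abs_le.2 this
  · intro h j
    rw [Finset.mem_Icc]
    exact abs_le.1 (h j)

theorem card_bx (H : ℕ) : (bx d H).card = (2 * H + 1) ^ d := by
  unfold bx
  rw [Fintype.card_piFinset]
  simp
  congr 1
  omega

theorem zz_zero (v : Fin d → ℂ) : zz v 0 = 0 := by simp [zz]

theorem zz_sub (v : Fin d → ℂ) (a b : Fin d → ℤ) : zz v (a - b) = zz v a - zz v b := by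
  simp [zz, sub_mul, Finset.sum_sub_distrib]

theorem zz_add (v : Fin d → ℂ) (a b : Fin d → ℤ) : zz v (a + b) = zz v a + zz v b := by
  simp [zz, add_mul, Finset.sum_add_distrib]

/-- the rational version of `zz` -/
noncomputable def zq (v : Fin d → ℂ) : (Fin d → ℚ) →ₗ[ℚ] ℂ := Fintype.linearCombination ℚ v

theorem zq_apply (v : Fin d → ℂ) (q : Fin d → ℚ) : zq v q = ∑ j, (q j : ℂ) * v j := by
  unfold zq
  rw [Fintype.linearCombination_apply]
  refine Finset.sum_congr rfl fun j _ => ?_
  rw [Rat.smul_def]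

theorem zq_int (v : Fin d → ℂ) (a : Fin d → ℤ) : zq v (fun j => (a j : ℚ)) = zz v a := by
  rw [zq_apply, zz]
  refine Finset.sum_congr rfl fun j _ => ?_
  push_cast; rfl

theorem zq_inj (v : Fin d → ℂ) (hv : LinearIndependent ℚ v) : Function.Injective (zq v) := by
  unfold zq
  exact (linearIndependent_iff_injective_fintypeLinearCombination).1 hv

theorem zz_eq_zero (v : Fin d → ℂ) (hv : LinearIndependent ℚ v) (a : Fin d → ℤ) (h : zz v a = 0) :
    a = 0 := by
  rw [← zq_int] at h
  have := zq_inj v hv (a₁ := fun j => (a j : ℚ)) (a₂ := 0) (by rw [h, map_zero])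
  funext j
  have := congrFun this j
  simpa using this

/-- cast of rational vectors to real vectors -/
noncomputable def castR (d : ℕ) : (Fin d → ℚ) →ₗ[ℚ] (Fin d → ℝ) where
  toFun q := fun j => (q j : ℝ)
  map_add' p q := by funext j; simp
  map_smul' r q := by funext j; simp [Rat.smul_def]

/-- Packing of separated integer vectors whose values lie in a rational subspace `U`. -/
theorem packZ (v : Fin d → ℂ) (hv : LinearIndependent ℚ v) (U : Submodule ℚ ℂ) [Module.Finite ℚ U]
    (A : Finset (Fin d → ℤ)) (hA : ∀ a ∈ A, zz v a ∈ U) (R h : ℕ) (hh : 1 ≤ h)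
    (hR : ∀ a ∈ A, nn a ≤ R) (hsep : ∀ a ∈ A, ∀ b ∈ A, a ≠ b → h ≤ nn (a - b)) :
    (A.card : ℝ) ≤ (1 + 2 * R / h) ^ finrank ℚ U := by
  classical
  set U' : Submodule ℚ (Fin d → ℚ) := U.comap (zq v) with hU'
  have hfr : finrank ℚ U' ≤ finrank ℚ U := by
    let f : U' →ₗ[ℚ] U := (zq v).restrict (fun x hx => hx)
    refine LinearMap.finrank_le_finrank_of_injective (f := f) ?_
    intro x y hxy
    have : zq v x = zq v y := congrArg Subtype.val hxy
    exact Subtype.ext (zq_inj v hv this)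
  let b := Module.finBasis ℚ U'
  set g : Fin (finrank ℚ U') → (Fin d → ℝ) := fun i => castR d (b i : Fin d → ℚ) with hg
  set E : Submodule ℝ (Fin d → ℝ) := Submodule.span ℝ (Set.range g) with hE
  have hEfr : finrank ℝ E ≤ finrank ℚ U' := by
    have := finrank_range_le_card (R := ℝ) g
    simpa [Set.finrank] using this
  have hmem : ∀ a ∈ A, (fun j => ((a j : ℤ) : ℝ)) ∈ E := by
    intro a ha
    have h1 : (fun j => ((a j : ℤ) : ℚ)) ∈ U' := by
      rw [hU', Submodule.mem_comap, zq_int]; exact hA a ha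
    have h2 := b.sum_repr ⟨_, h1⟩
    have h3 : (fun j => ((a j : ℤ) : ℚ)) = ∑ i, b.repr ⟨_, h1⟩ i • (b i : Fin d → ℚ) := by
      have h6 := congrArg (U'.subtype) h2
      rw [map_sum] at h6
      simp only [map_smul, Submodule.subtype_apply] at h6
      exact h6.symm
    have h4 : (fun j => ((a j : ℤ) : ℝ)) = castR d (fun j => ((a j : ℤ) : ℚ)) := by
      funext j; simp [castR]
    rw [h4, h3, map_sum]
    refine Submodule.sum_mem _ fun i _ => ?_
    rw [map_smul]
    have h5 : (b.repr ⟨_, h1⟩ i) • castR d (b i : Fin d → ℚ) =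
        ((b.repr ⟨_, h1⟩ i : ℚ) : ℝ) • castR d (b i : Fin d → ℚ) := by
      funext j; simp [Rat.smul_def]
    rw [h5]
    exact Submodule.smul_mem _ _ (Submodule.subset_span ⟨i, rfl⟩)
  let ι : {a // a ∈ A} → E := fun a => ⟨fun j => ((a.1 j : ℤ) : ℝ), hmem a.1 a.2⟩
  have hι : Function.Injective ι := by
    intro a b hab
    have := congrArg Subtype.val hab
    apply Subtype.ext
    funext j
    have h7 : ((a.1 j : ℤ) : ℝ) = ((b.1 j : ℤ) : ℝ) := congrFun this j
    exact_mod_cast h7
  have hnorm : ∀ a : Fin d → ℤ, ‖(fun j => ((a j : ℤ) : ℝ))‖ = (nn a : ℝ) := by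
    intro a
    apply le_antisymm
    · rw [pi_norm_le_iff_of_nonneg (by positivity)]
      intro j
      have := (nn_le_iff a _).1 le_rfl j
      rw [Real.norm_eq_abs]
      exact_mod_cast this
    · have h1 : nn a ≤ ⌊‖(fun j => ((a j : ℤ) : ℝ))‖⌋₊ := by
        unfold nn
        rw [Finset.sup_le_iff]
        intro j _
        rw [Nat.le_floor_iff (norm_nonneg _)]
        have h2 := norm_le_pi_norm (fun j => ((a j : ℤ) : ℝ)) j
        rw [Real.norm_eq_abs] at h2
        have h3 : (((a j).natAbs : ℕ) : ℝ) = |((a j : ℤ) : ℝ)| := by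
          rw [Nat.cast_natAbs]; push_cast; rfl
        rw [h3]; exact h2
      exact (Nat.cast_le.2 h1).trans (Nat.floor_le (norm_nonneg _))
  have hp := pack (E := E) (A.attach.image ι) R h (by positivity) (by positivity)
    (by
      intro c hc
      rw [Finset.mem_image] at hc
      obtain ⟨a, _, rfl⟩ := hc
      show ‖(fun j => ((a.1 j : ℤ) : ℝ))‖ ≤ R
      rw [hnorm]
      exact_mod_cast hR a.1 a.2)
    (by
      intro c hc e he hce
      rw [Finset.mem_image] at hc he
      obtain ⟨a, _, rfl⟩ := hc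
      obtain ⟨a', _, rfl⟩ := he
      have h1 : a.1 ≠ a'.1 := by
        intro h; apply hce; rw [Subtype.ext h]
      have h2 := hsep a.1 a.2 a'.1 a'.2 h1
      have h3 : ‖ι a - ι a'‖ = (nn (a.1 - a'.1) : ℝ) := by
        rw [← hnorm]
        show ‖(fun j => ((a.1 j : ℤ) : ℝ)) - (fun j => ((a'.1 j : ℤ) : ℝ))‖ = _
        congr 1
        funext j
        simp
      rw [h3]
      exact_mod_cast h2)
  rw [Finset.card_image_of_injective _ hι, Finset.card_attach] at hp
  refine hp.trans ?_
  apply pow_le_pow_right₀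
  · have : (0:ℝ) ≤ 2 * R / h := by positivity
    linarith
  · exact hEfr.trans hfr

end Pool.Agent.GAPD
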