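import Pool.Agent.GAPD.Sum

/-!
# The multiplier field and the splitting lines
-/

set_option autoImplicit false

open Module Finset ComplexConjugate

namespace Pool.Agent.GAPD

variable {d : ℕ}

/-- multiplier field of a finite-dimensional rational space -/
noncomputable def mulF (V : Submodule ℚ ℂ) [Module.Finite ℚ V] : Subfield ℂ where
  carrier := {m | ∀ x ∈ V, m * x ∈ V}
  mul_mem' := by intro a b ha hb x hx; rw [mul_assoc]; exact ha _ (hb x hx)
  one_mem' := by intro x hx; simpa using hx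
  add_mem' := by intro a b ha hb x hx; rw [add_mul]; exact V.add_mem (ha x hx) (hb x hx)
  zero_mem' := by intro x _; simp
  neg_mem' := by intro a ha x hx; rw [neg_mul]; exact V.neg_mem (ha x hx)
  inv_mem' := by
    intro m hm x hx
    by_cases h0 : m = 0
    · simp [h0]
    let f : V →ₗ[ℚ] V := (LinearMap.mulLeft ℚ m).restrict (fun x hx => hm x hx)
    have hinj : Function.Injective f := by
      intro a b hab
      have : m * (a : ℂ) = m * (b : ℂ) := congrArg Subtype.val hab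
      exact Subtype.ext (mul_left_cancel₀ h0 this)
    have hsur := (LinearMap.injective_iff_surjective (f := f)).1 hinj
    obtain ⟨y, hy⟩ := hsur ⟨x, hx⟩
    have : m * (y : ℂ) = x := congrArg Subtype.val hy
    rw [← this, inv_mul_cancel_left₀ h0]; exact y.2

theorem mem_mulF (V : Submodule ℚ ℂ) [Module.Finite ℚ V] (m : ℂ) :
    m ∈ mulF V ↔ ∀ x ∈ V, m * x ∈ V := Iff.rfl

theorem split_eq (v : Fin d → ℂ) (hv : LinearIndependent ℚ v) (w : ℂ) (hw : w ≠ 0)
    (hs : du v w + dw v w = d) : (VV v ⊓ par w) ⊔ (VV v ⊓ ort w) = VV v := by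
  have h1 := Submodule.finrank_sup_add_finrank_inf_eq (VV v ⊓ par w) (VV v ⊓ ort w)
  have h2 : (VV v ⊓ par w) ⊓ (VV v ⊓ ort w) = ⊥ := by
    rw [eq_bot_iff, ← par_inf_ort w hw]
    intro x hx
    exact ⟨hx.1.2, hx.2.2⟩
  rw [h2, finrank_bot, add_zero] at h1
  refine Submodule.eq_of_le_of_finrank_eq (sup_le inf_le_left inf_le_left) ?_
  rw [h1, finrank_VV v hv]
  exact hs

/-- reflection in the line through `w` -/
noncomputable def sg (w x : ℂ) : ℂ := (w / conj w) * conj x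

theorem sg_add (w y y' : ℂ) (hw : w ≠ 0) (hy : y ∈ par w) (hy' : y' ∈ ort w) :
    sg w (y + y') = y - y' := by
  obtain ⟨r, rfl⟩ := par_of_mem y w hw hy
  obtain ⟨s, rfl⟩ := ort_of_mem y' w hw hy'
  have hcw : conj w ≠ 0 := by simpa using hw
  unfold sg
  rw [map_add, map_mul, map_mul, map_mul, Complex.conj_ofReal, Complex.conj_ofReal, Complex.conj_I]
  field_simp
  ring

theorem sg_mem (v : Fin d → ℂ) (hv : LinearIndependent ℚ v) (w : ℂ) (hw : w ≠ 0)
    (hs : du v w + dw v w = d) (x : ℂ) (hx : x ∈ VV v) : sg w x ∈ VV v := by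
  rw [← split_eq v hv w hw hs] at hx
  obtain ⟨y, hy, y', hy', rfl⟩ := Submodule.mem_sup.1 hx
  rw [sg_add w y y' hw hy.2 hy'.2]
  exact Submodule.sub_mem _ hy.1 hy'.1

theorem conj_mem_mulF (v : Fin d → ℂ) (hv : LinearIndependent ℚ v) (w : ℂ) (hw : w ≠ 0)
    (hs : du v w + dw v w = d) (m : ℂ) (hm : m ∈ mulF (VV v)) : conj m ∈ mulF (VV v) := by
  rw [mem_mulF] at hm ⊢
  intro x hx
  have hcw : conj w ≠ 0 := by simpa using hw
  have h1 : sg w (m * sg w x) = conj m * x := by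
    unfold sg
    rw [map_mul, map_mul, map_div₀, Complex.conj_conj, Complex.conj_conj]
    field_simp
  rw [← h1]
  exact sg_mem v hv w hw hs _ (hm _ (sg_mem v hv w hw hs x hx))

theorem nu_mem (v : Fin d → ℂ) (hv : LinearIndependent ℚ v) (w₀ w : ℂ) (hw₀ : w₀ ≠ 0) (hw : w ≠ 0)
    (hs₀ : du v w₀ + dw v w₀ = d) (hs : du v w + dw v w = d) (y y' : ℂ)
    (hy : y ∈ par w₀) (hy' : y' ∈ ort w₀) (hyy : w = y + y') (hy0 : y ≠ 0) :
    y' / y ∈ mulF (VV v) := by
  have hcw : conj w ≠ 0 := by simpa using hw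
  have hcw₀ : conj w₀ ≠ 0 := by simpa using hw₀
  set μ : ℂ := (w / conj w) * (conj w₀ / w₀) with hμ
  have hμM : μ ∈ mulF (VV v) := by
    rw [mem_mulF]
    intro x hx
    have h1 : sg w (sg w₀ x) = μ * x := by
      unfold sg
      rw [map_mul, map_div₀, Complex.conj_conj, Complex.conj_conj, hμ]
      ring
    rw [← h1]
    exact sg_mem v hv w hw hs _ (sg_mem v hv w₀ hw₀ hs₀ x hx)
  have h2 : sg w₀ w = y - y' := by rw [hyy]; exact sg_add w₀ y y' hw₀ hy hy'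
  have h3 : y - y' ≠ 0 := by
    rw [← h2]
    unfold sg
    exact mul_ne_zero (div_ne_zero hw₀ hcw₀) hcw
  have h4 : μ * (y - y') = y + y' := by
    rw [← h2, hμ]
    unfold sg
    rw [← hyy]
    field_simp
  have h5 : μ + 1 = 2 * y / (y - y') := by
    rw [eq_div_iff h3]
    linear_combination h4
  have h6 : μ - 1 = 2 * y' / (y - y') := by
    rw [eq_div_iff h3]
    linear_combination h4
  have h7 : y' / y = (μ - 1) / (μ + 1) := by
    rw [h5, h6]
    field_simp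
  rw [h7]
  exact div_mem (sub_mem hμM (one_mem _)) (add_mem hμM (one_mem _))

/-- multipliers as a rational space -/
noncomputable def mulQ (V : Submodule ℚ ℂ) : Submodule ℚ ℂ where
  carrier := {m | ∀ x ∈ V, m * x ∈ V}
  add_mem' := by intro a b ha hb x hx; rw [add_mul]; exact V.add_mem (ha x hx) (hb x hx)
  zero_mem' := by intro x _; simp
  smul_mem' := by
    intro r a ha x hx
    rw [smul_mul_assoc]; exact V.smul_mem _ (ha x hx)

/-- the elements of the span on the line through `i w₀` which are multiples of `y` -/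
noncomputable def JJ (v : Fin d → ℂ) (w₀ y : ℂ) : Submodule ℚ ℂ :=
  VV v ⊓ (ort w₀ ⊓ (mulQ (VV v)).map (LinearMap.mulRight ℚ y))

instance (v : Fin d → ℂ) (w₀ y : ℂ) : Module.Finite ℚ (JJ v w₀ y) := by
  unfold JJ; infer_instance

/-- The hypothesis excluding the exceptional spans. -/
def NoField (v : Fin d → ℂ) : Prop :=
  ∀ (K : Subfield ℂ) (z : ℂ), (∀ w ∈ K, conj w ∈ K) → (∃ w ∈ K, w.im ≠ 0) →
    (VV v : Set ℂ) ≠ (fun w => z * w) '' (K : Set ℂ)

theorem finrank_JJ (v : Fin d → ℂ) (hv : LinearIndependent ℚ v) (hex : NoField v) (w₀ : ℂ)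
    (hw₀ : w₀ ≠ 0) (hs₀ : du v w₀ + dw v w₀ = d) (s₀ : ℂ) (hs₀0 : s₀ ≠ 0) (hs₀V : s₀ ∈ VV v)
    (hs₀o : s₀ ∈ ort w₀) (y : ℂ) (hyV : y ∈ VV v) (hyp : y ∈ par w₀) (hy0 : y ≠ 0) :
    finrank ℚ (JJ v w₀ y) + 1 ≤ dw v w₀ := by
  by_contra hcon
  have hle : JJ v w₀ y ≤ VV v ⊓ ort w₀ := by
    intro x hx; exact ⟨hx.1, hx.2.1⟩
  have heq : JJ v w₀ y = VV v ⊓ ort w₀ := by
    apply Submodule.eq_of_le_of_finrank_le hle
    unfold dw at hcon
    omega
  have hmul : ∀ s ∈ VV v, s ∈ ort w₀ → ∃ m ∈ mulF (VV v), s = m * y := by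
    intro s hs hso
    have : s ∈ JJ v w₀ y := by rw [heq]; exact ⟨hs, hso⟩
    obtain ⟨m, hm, hm2⟩ := (Submodule.mem_map).1 this.2.2
    refine ⟨m, hm, ?_⟩
    rw [← hm2]; rfl
  obtain ⟨m₀, hm₀, hm₀y⟩ := hmul s₀ hs₀V hs₀o
  have hm₀0 : m₀ ≠ 0 := by rintro rfl; exact hs₀0 (by rw [hm₀y, zero_mul])
  obtain ⟨r, hr⟩ := par_of_mem y w₀ hw₀ hyp
  obtain ⟨t, ht⟩ := ort_of_mem s₀ w₀ hw₀ hs₀o
  have hr0 : r ≠ 0 := by rintro rfl; apply hy0; rw [hr]; simp
  have ht0 : t ≠ 0 := by rintro rfl; apply hs₀0; rw [ht]; simp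
  have hr0' : (r : ℂ) ≠ 0 := by exact_mod_cast hr0
  have hm₀v : m₀ = ((t / r : ℝ) : ℂ) * Complex.I := by
    have h1 : m₀ * (r * w₀) = t * (Complex.I * w₀) := by rw [← hr, ← ht, hm₀y]
    have h2 : m₀ * r = t * Complex.I := by
      apply mul_right_cancel₀ hw₀
      linear_combination h1
    push_cast
    field_simp
    exact h2
  refine hex (mulF (VV v)) y (fun m hm => conj_mem_mulF v hv w₀ hw₀ hs₀ m hm) ⟨m₀, hm₀, ?_⟩ ?_
  · rw [hm₀v, Complex.im_ofReal_mul, Complex.I_im, mul_one]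
    exact div_ne_zero ht0 hr0
  · apply Set.eq_of_subset_of_subset
    · intro x hx
      have hx' : x ∈ (VV v ⊓ par w₀) ⊔ (VV v ⊓ ort w₀) := by
        rw [split_eq v hv w₀ hw₀ hs₀]; exact hx
      obtain ⟨u, hu, s, hs, rfl⟩ := Submodule.mem_sup.1 hx'
      obtain ⟨m, hm, hms⟩ := hmul s hs.1 hs.2
      obtain ⟨r', hr'⟩ := par_of_mem u w₀ hw₀ hu.2
      have hmu : m₀ * u ∈ VV v := (mem_mulF _ _).1 hm₀ u hu.1
      have hmo : m₀ * u ∈ ort w₀ := by
        rw [mem_ort, hm₀v, hr',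
          show ((t / r : ℝ) : ℂ) * Complex.I * (r' * w₀) * conj w₀ =
            ((t / r * r' : ℝ) : ℂ) * (Complex.I * (w₀ * conj w₀)) by push_cast; ring,
          Complex.mul_conj, Complex.re_ofReal_mul]
        simp
      obtain ⟨m₁, hm₁, hm₁u⟩ := hmul _ hmu hmo
      refine ⟨m₀⁻¹ * m₁ + m, add_mem (mul_mem (inv_mem hm₀) hm₁) hm, ?_⟩
      show y * (m₀⁻¹ * m₁ + m) = u + s
      have h5 : u = m₀⁻¹ * (m₁ * y) := by rw [← hm₁u, inv_mul_cancel_left₀ hm₀0]
      rw [h5, hms]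
      ring
    · rintro x ⟨m, hm, rfl⟩
      show y * m ∈ VV v
      rw [mul_comm]
      exact (mem_mulF _ _).1 hm y hyV

end Pool.Agent.GAPD
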