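import Pool.Agent.GAPD.Geo

/-!
# The number of orthogonal pairs
-/

set_option autoImplicit false

open Module Finset ComplexConjugate

namespace Pool.Agent.GAPD

variable {d : ℕ}

theorem sum_gen (T : Finset (Fin d → ℤ)) (C : ℝ) (p q H : ℕ) (hH : 1 ≤ H)
    (hN : ∀ k, 1 ≤ k → k ≤ H →
      ((T.filter (fun c => 1 ≤ nn c ∧ nn c ≤ k)).card : ℝ) ≤ C * (k : ℝ) ^ p) :
    ∑ c ∈ T.filter (fun c => 1 ≤ nn c ∧ nn c ≤ H), (3 * H / (nn c : ℝ)) ^ q ≤
      (3 * H) ^ q * (C * ((H : ℝ) ^ p / (H : ℝ) ^ q) +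
        C * q * ∑ k ∈ Finset.Ico 1 H, ((k : ℝ) ^ p / (k : ℝ) ^ (q + 1))) := by
  have h1 := abel T nn q H hH
  have h2 : ∑ c ∈ T.filter (fun c => 1 ≤ nn c ∧ nn c ≤ H), (3 * H / (nn c : ℝ)) ^ q =
      (3 * H) ^ q * ∑ c ∈ T.filter (fun c => 1 ≤ nn c ∧ nn c ≤ H), (1 / (nn c : ℝ) ^ q) := by
    rw [Finset.mul_sum]
    refine Finset.sum_congr rfl fun c _ => ?_
    rw [div_pow]; ring
  rw [h2]
  apply mul_le_mul_of_nonneg_left _ (by positivity)
  refine h1.trans ?_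
  have hH' : (0 : ℝ) < H := by exact_mod_cast hH
  apply add_le_add
  · rw [← mul_div_assoc]
    gcongr
    exact hN H hH le_rfl
  · rw [Finset.mul_sum]
    refine Finset.sum_le_sum fun k hk => ?_
    rw [Finset.mem_Ico] at hk
    have hk' : (0 : ℝ) < k := by exact_mod_cast hk.1
    have h3 := hN k hk.1 (by omega)
    have h4 : C * q * ((k : ℝ) ^ p / (k : ℝ) ^ (q + 1)) = C * (k : ℝ) ^ p * (q / (k : ℝ) ^ (q + 1)) := by
      field_simp
    rw [h4]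
    gcongr

theorem bx_count (H k : ℕ) (hk : 1 ≤ k) :
    (((bx d H).filter (fun c => 1 ≤ nn c ∧ nn c ≤ k)).card : ℝ) ≤ 3 ^ d * (k : ℝ) ^ d := by
  have h1 : (bx d H).filter (fun c => 1 ≤ nn c ∧ nn c ≤ k) ⊆ bx d k := by
    intro c hc
    rw [Finset.mem_filter] at hc
    rw [mem_bx]; exact hc.2.2
  have h2 := Finset.card_le_card h1
  rw [card_bx] at h2
  have h3 : (2 * k + 1) ^ d ≤ (3 * k) ^ d := Nat.pow_le_pow_left (by omega) _
  have h4 : ((bx d H).filter (fun c => 1 ≤ nn c ∧ nn c ≤ k)).card ≤ 3 ^ d * k ^ d := by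
    rw [← mul_pow]; omega
  exact_mod_cast h4

theorem zero_term (d H : ℕ) (hH : 1 ≤ H) : (2 * (H : ℝ) + 1) ^ d ≤ 3 ^ d * (H : ℝ) ^ d := by
  have hH' : (1 : ℝ) ≤ H := by exact_mod_cast hH
  rw [← mul_pow]
  apply pow_le_pow_left₀ (by positivity)
  linarith

theorem one_le_base {H k : ℕ} (hk : 1 ≤ k) (h : k ≤ H) : (1 : ℝ) ≤ 3 * H / (k : ℝ) := by
  have hk' : (0 : ℝ) < k := by exact_mod_cast hk
  have h' : (k : ℝ) ≤ H := by exact_mod_cast h
  rw [le_div_iff₀ hk']; linarith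

/-- The number of orthogonal pairs is `O(H^d (1 + log H))`. -/
theorem EE_log (v : Fin d → ℂ) (hv : LinearIndependent ℚ v) :
    ∃ C : ℝ, 0 < C ∧ ∀ H : ℕ, 1 ≤ H → (EE v H : ℝ) ≤ C * (H : ℝ) ^ d * (1 + Real.log H) := by
  classical
  refine ⟨2 * 3 ^ d + 2 * (3 ^ d * (3 ^ d * (1 + d))), by positivity, ?_⟩
  intro H hH
  have hH' : (1 : ℝ) ≤ H := by exact_mod_cast hH
  have hlog : 0 ≤ Real.log H := Real.log_nonneg hH'
  have h1 := EE_le v hv H hH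
  have h2 : ∑ c ∈ RR v H, (3 * H / (nn c : ℝ)) ^ (du v (zz v c) + dw v (zz v c)) ≤
      ∑ c ∈ (bx d H).filter (fun c => 1 ≤ nn c ∧ nn c ≤ H), (3 * H / (nn c : ℝ)) ^ d := by
    have hsub : RR v H ⊆ (bx d H).filter (fun c => 1 ≤ nn c ∧ nn c ≤ H) := by
      intro c hc
      unfold RR at hc
      rw [Finset.mem_filter] at hc ⊢
      exact ⟨hc.1, nn_pos c hc.2.1.1, (mem_bx H c).1 hc.1⟩
    refine le_trans (Finset.sum_le_sum fun c hc => ?_)
      (Finset.sum_le_sum_of_subset_of_nonneg hsub (fun _ _ _ => by positivity))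
    have hc2 := hsub hc
    rw [Finset.mem_filter] at hc2
    have hc0 : c ≠ 0 := by
      rintro rfl; rw [nn_zero] at hc2; omega
    apply pow_le_pow_right₀ (one_le_base hc2.2.1 hc2.2.2)
    exact du_add_dw v hv _ (fun h => hc0 (zz_eq_zero v hv c h))
  have h3 := sum_gen (bx d H) (3 ^ d) d d H hH (fun k hk _ => bx_count H k hk)
  have h4 : ∑ k ∈ Finset.Ico 1 H, ((k : ℝ) ^ d / (k : ℝ) ^ (d + 1)) ≤ 1 + Real.log H := by
    refine le_trans (le_of_eq ?_) (harm_le H)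
    refine Finset.sum_congr rfl fun k hk => ?_
    rw [Finset.mem_Ico] at hk
    have hk' : (0 : ℝ) < k := by exact_mod_cast hk.1
    rw [pow_succ]; field_simp
  have h5 : (H : ℝ) ^ d / (H : ℝ) ^ d = 1 := div_self (by positivity)
  rw [h5] at h3
  have h6 := zero_term d H hH
  have hHd : (0 : ℝ) < (H : ℝ) ^ d := by positivity
  have h7 : (3 * (H : ℝ)) ^ d * (3 ^ d * 1 + 3 ^ d * d * ∑ k ∈ Finset.Ico 1 H, ((k : ℝ) ^ d / (k : ℝ) ^ (d + 1))) ≤
      (3 * (H : ℝ)) ^ d * (3 ^ d * 1 + 3 ^ d * d * (1 + Real.log H)) := by gcongr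
  calc (EE v H : ℝ) ≤ 2 * (3 ^ d * (H : ℝ) ^ d) +
        2 * ((3 * (H : ℝ)) ^ d * (3 ^ d * 1 + 3 ^ d * d * (1 + Real.log H))) := by linarith
    _ ≤ 2 * (3 ^ d * (H : ℝ) ^ d) * (1 + Real.log H) +
        2 * ((3 * (H : ℝ)) ^ d * (3 ^ d * (1 + Real.log H) + 3 ^ d * d * (1 + Real.log H))) := by
      have e1 : 2 * (3 ^ d * (H : ℝ) ^ d) ≤ 2 * (3 ^ d * (H : ℝ) ^ d) * (1 + Real.log H) :=
        le_mul_of_one_le_right (by positivity) (by linarith)
      have e2 : (3 : ℝ) ^ d * 1 ≤ 3 ^ d * (1 + Real.log H) := by gcongr; linarith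
      have e3 : 2 * ((3 * (H : ℝ)) ^ d * (3 ^ d * 1 + 3 ^ d * d * (1 + Real.log H))) ≤
        2 * ((3 * (H : ℝ)) ^ d * (3 ^ d * (1 + Real.log H) + 3 ^ d * d * (1 + Real.log H))) := by gcongr
      linarith
    _ = _ := by rw [mul_pow]; ring

/-- the splitting vectors -/
noncomputable def TT (v : Fin d → ℂ) (H : ℕ) : Finset (Fin d → ℤ) := by
  classical
  exact (bx d H).filter (fun c => c ≠ 0 ∧ du v (zz v c) + dw v (zz v c) = d ∧
    ∃ b : Fin d → ℤ, b ≠ 0 ∧ zz v b ∈ ort (zz v c))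

/-- If there are few splitting vectors then the number of orthogonal pairs is `O(H^d)`. -/
theorem EE_lin (v : Fin d → ℂ) (hv : LinearIndependent ℚ v) (C₀ : ℝ) (hC₀ : 0 ≤ C₀)
    (hT : ∀ h : ℕ, 1 ≤ h → ((TT v h).card : ℝ) ≤ C₀ * (h : ℝ) ^ (d - 1)) :
    ∃ C : ℝ, 0 < C ∧ ∀ H : ℕ, 1 ≤ H → (EE v H : ℝ) ≤ C * (H : ℝ) ^ d := by
  classical
  rcases Nat.eq_zero_or_pos d with hd | hd
  · subst hd
    refine ⟨1, one_pos, ?_⟩
    intro H _
    have h1 : EE v H ≤ (bx 0 H ×ˢ bx 0 H).card := by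
      unfold EE; exact Finset.card_filter_le _ _
    rw [Finset.card_product, card_bx] at h1
    simp at h1
    simp
    exact_mod_cast h1
  obtain ⟨e, rfl⟩ : ∃ e, d = e + 1 := ⟨d - 1, by omega⟩
  refine ⟨2 * 3 ^ (e + 1) + 2 * (3 ^ e * (3 ^ (e + 1) * (1 + e)) + 3 ^ (e + 1) * (C₀ * (1 + (e + 1) * 2))),
    by positivity, ?_⟩
  intro H hH
  have hH' : (1 : ℝ) ≤ H := by exact_mod_cast hH
  have h1 := EE_le v hv H hH
  -- the splitting vectors of the box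
  set TH := TT v H with hTH
  have hsub : RR v H ⊆ (bx (e + 1) H).filter (fun c => 1 ≤ nn c ∧ nn c ≤ H) := by
    intro c hc
    unfold RR at hc
    rw [Finset.mem_filter] at hc ⊢
    exact ⟨hc.1, nn_pos c hc.2.1.1, (mem_bx H c).1 hc.1⟩
  have h2 : ∑ c ∈ RR v H, (3 * H / (nn c : ℝ)) ^ (du v (zz v c) + dw v (zz v c)) ≤
      ∑ c ∈ (bx (e + 1) H).filter (fun c => 1 ≤ nn c ∧ nn c ≤ H), (3 * H / (nn c : ℝ)) ^ e +
      ∑ c ∈ TH.filter (fun c => 1 ≤ nn c ∧ nn c ≤ H), (3 * H / (nn c : ℝ)) ^ (e + 1) := by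
    rw [← Finset.sum_filter_add_sum_filter_not (RR v H) (fun c => du v (zz v c) + dw v (zz v c) ≤ e)]
    apply add_le_add
    · refine le_trans (Finset.sum_le_sum (f := _)
        (g := fun c => (3 * H / (nn c : ℝ)) ^ e) fun c hc => ?_)
        (Finset.sum_le_sum_of_subset_of_nonneg ((Finset.filter_subset _ _).trans hsub)
          (fun _ _ _ => by positivity))
      rw [Finset.mem_filter] at hc
      have hc2 := hsub hc.1
      rw [Finset.mem_filter] at hc2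
      exact pow_le_pow_right₀ (one_le_base hc2.2.1 hc2.2.2) hc.2
    · refine le_trans (Finset.sum_le_sum (f := _)
        (g := fun c => (3 * H / (nn c : ℝ)) ^ (e + 1)) fun c hc => ?_)
        (Finset.sum_le_sum_of_subset_of_nonneg ?_ (fun _ _ _ => by positivity))
      · rw [Finset.mem_filter] at hc
        have hc2 := hsub hc.1
        rw [Finset.mem_filter] at hc2
        have hc0 : c ≠ 0 := by
          rintro rfl; rw [nn_zero] at hc2; omega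
        exact pow_le_pow_right₀ (one_le_base hc2.2.1 hc2.2.2)
          (du_add_dw v hv _ (fun h => hc0 (zz_eq_zero v hv c h)))
      · intro c hc
        rw [Finset.mem_filter] at hc
        have hc2 := hsub hc.1
        have hc3 := hc.1
        unfold RR at hc3
        rw [Finset.mem_filter] at hc2 hc3
        have hc0 : c ≠ 0 := hc3.2.1.1
        have h9 := du_add_dw v hv _ (fun h => hc0 (zz_eq_zero v hv c h))
        rw [Finset.mem_filter]
        refine ⟨?_, hc2.2⟩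
        rw [hTH]; unfold TT
        rw [Finset.mem_filter]
        exact ⟨hc2.1, hc0, by omega, hc3.2.2⟩
  have h3 := sum_gen (bx (e + 1) H) (3 ^ (e + 1)) (e + 1) e H hH (fun k hk _ => bx_count H k hk)
  have h3' := sum_gen TH C₀ e (e + 1) H hH (by
    intro k hk hkH
    have hs : TH.filter (fun c => 1 ≤ nn c ∧ nn c ≤ k) ⊆ TT v k := by
      intro c hc
      rw [hTH] at hc
      unfold TT at hc ⊢
      rw [Finset.mem_filter, Finset.mem_filter] at hc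
      rw [Finset.mem_filter, mem_bx]
      exact ⟨hc.2.2, hc.1.2⟩
    have h10 : ((TH.filter (fun c => 1 ≤ nn c ∧ nn c ≤ k)).card : ℝ) ≤ (TT v k).card := by
      exact_mod_cast Finset.card_le_card hs
    exact h10.trans (hT k hk))
  have h4 : ∑ k ∈ Finset.Ico 1 H, ((k : ℝ) ^ (e + 1) / (k : ℝ) ^ (e + 1)) ≤ H := by
    have : ∑ k ∈ Finset.Ico 1 H, ((k : ℝ) ^ (e + 1) / (k : ℝ) ^ (e + 1)) =
        ∑ k ∈ Finset.Ico 1 H, (1 : ℝ) := by
      refine Finset.sum_congr rfl fun k hk => ?_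
      rw [Finset.mem_Ico] at hk
      have hk' : (0 : ℝ) < k := by exact_mod_cast hk.1
      exact div_self (by positivity)
    rw [this]
    simp
  have h4' : ∑ k ∈ Finset.Ico 1 H, ((k : ℝ) ^ e / (k : ℝ) ^ (e + 1 + 1)) ≤ 2 := by
    refine le_trans (le_of_eq ?_) (sq_sum_le H)
    refine Finset.sum_congr rfl fun k hk => ?_
    rw [Finset.mem_Ico] at hk
    have hk' : (0 : ℝ) < k := by exact_mod_cast hk.1
    rw [pow_succ, pow_succ]; field_simp
  have h5 : (H : ℝ) ^ (e + 1) / (H : ℝ) ^ e = H := by rw [pow_succ]; field_simp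
  have h5' : (H : ℝ) ^ e / (H : ℝ) ^ (e + 1) ≤ 1 := by
    rw [div_le_one (by positivity)]
    exact pow_le_pow_right₀ hH' (by omega)
  rw [h5] at h3
  have h6 := zero_term (e + 1) H hH
  have h7 : (3 * (H : ℝ)) ^ e * (3 ^ (e + 1) * (H : ℝ) + 3 ^ (e + 1) * e *
        ∑ k ∈ Finset.Ico 1 H, ((k : ℝ) ^ (e + 1) / (k : ℝ) ^ (e + 1))) ≤
      (3 * (H : ℝ)) ^ e * (3 ^ (e + 1) * (H : ℝ) + 3 ^ (e + 1) * e * H) := by gcongr
  have h7' : (3 * (H : ℝ)) ^ (e + 1) * (C₀ * ((H : ℝ) ^ e / (H : ℝ) ^ (e + 1)) + C₀ * ((e + 1 : ℕ) : ℝ) *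
        ∑ k ∈ Finset.Ico 1 H, ((k : ℝ) ^ e / (k : ℝ) ^ (e + 1 + 1))) ≤
      (3 * (H : ℝ)) ^ (e + 1) * (C₀ * 1 + C₀ * ((e + 1 : ℕ) : ℝ) * 2) := by gcongr
  have h8 : (EE v H : ℝ) ≤ 2 * (3 ^ (e + 1) * (H : ℝ) ^ (e + 1)) +
      2 * ((3 * (H : ℝ)) ^ e * (3 ^ (e + 1) * (H : ℝ) + 3 ^ (e + 1) * e * H) +
        (3 * (H : ℝ)) ^ (e + 1) * (C₀ * 1 + C₀ * ((e + 1 : ℕ) : ℝ) * 2)) := by
    linarith
  refine h8.trans (le_of_eq ?_)
  rw [mul_pow, mul_pow]
  push_cast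
  ring

end Pool.Agent.GAPD
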