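import Pool.Agent.GAPD.Main

/-!
# Uniform bounds: the constant depends only on the rank

On a line of integer vectors whose direction is not of the multiplier type there are at most two
splitting vectors; one of the directions `e_j`, `e_j + e_k` is not of this type unless the span is
exceptional.
-/

set_option autoImplicit false

open Module Finset ComplexConjugate

namespace Pool.Agent.GAPD

variable {d : ℕ}

/-- `κ w / conj w` belongs to the field `M` -/
def RT (M : Subfield ℂ) (κ w : ℂ) : Prop := κ * w / conj w ∈ M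

theorem RT_iff (M : Subfield ℂ) (κ w : ℂ) (hw : w ≠ 0) :
    RT M κ w ↔ ∃ μ ∈ M, κ * w = μ * conj w := by
  have hcw : conj w ≠ 0 := by simpa using hw
  constructor
  · intro h
    exact ⟨κ * w / conj w, h, by field_simp⟩
  · rintro ⟨μ, hμ, h⟩
    unfold RT
    rw [h, mul_div_assoc, div_self hcw, mul_one]
    exact hμ

/-- three points of a line -/
theorem line3 (M : Subfield ℂ) (κ w₁ w₂ w₃ : ℂ) (t : ℚ) (ht0 : t ≠ 0) (ht1 : t ≠ 1)
    (h1 : w₁ ≠ 0) (h2 : w₂ ≠ 0) (h3 : w₃ ≠ 0) (h12 : w₁ ≠ w₂)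
    (hw : w₃ = (1 - (t : ℂ)) * w₁ + (t : ℂ) * w₂)
    (r1 : RT M κ w₁) (r2 : RT M κ w₂) (r3 : RT M κ w₃) : RT M κ (w₂ - w₁) := by
  obtain ⟨μ₁, m1, e1⟩ := (RT_iff M κ w₁ h1).1 r1
  obtain ⟨μ₂, m2, e2⟩ := (RT_iff M κ w₂ h2).1 r2
  obtain ⟨μ₃, m3, e3⟩ := (RT_iff M κ w₃ h3).1 r3
  rw [RT_iff M κ (w₂ - w₁) (sub_ne_zero.2 (Ne.symm h12))]
  have hc2 : conj w₂ ≠ 0 := by simpa using h2
  have ht0' : (t : ℂ) ≠ 0 := by exact_mod_cast ht0
  have ht1' : (1 - (t : ℂ)) ≠ 0 := by
    intro h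
    apply ht1
    have : (t : ℂ) = 1 := by linear_combination -h
    exact_mod_cast this
  have htM : (t : ℂ) ∈ M := SubfieldClass.ratCast_mem M t
  have hcw : conj w₃ = (1 - (t : ℂ)) * conj w₁ + (t : ℂ) * conj w₂ := by
    rw [hw, map_add, map_mul, map_mul, map_sub, map_one]
    have : conj ((t : ℂ)) = (t : ℂ) := by
      have : ((t : ℂ)) = ((t : ℝ) : ℂ) := by push_cast; rfl
      rw [this, Complex.conj_ofReal]
    rw [this]
  have hrel : (1 - (t : ℂ)) * (μ₃ - μ₁) * conj w₁ = (t : ℂ) * (μ₂ - μ₃) * conj w₂ := by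
    have e4 : κ * w₃ = (1 - (t : ℂ)) * (κ * w₁) + (t : ℂ) * (κ * w₂) := by rw [hw]; ring
    rw [e1, e2, e3, hcw] at e4
    linear_combination e4
  by_cases hμ : μ₁ = μ₂
  · refine ⟨μ₁, m1, ?_⟩
    rw [mul_sub, e1, e2, map_sub, hμ]; ring
  · have h31 : μ₃ - μ₁ ≠ 0 := by
      intro h
      rw [h, mul_zero, zero_mul] at hrel
      have h4 : μ₂ - μ₃ = 0 := by
        rcases mul_eq_zero.1 hrel.symm with h5 | h5
        · exact (mul_eq_zero.1 h5).resolve_left ht0'
        · exact absurd h5 hc2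
      apply hμ
      linear_combination -h - h4
    set r : ℂ := (t : ℂ) * (μ₂ - μ₃) / ((1 - (t : ℂ)) * (μ₃ - μ₁)) with hr
    have hrM : r ∈ M := div_mem (mul_mem htM (sub_mem m2 m3))
      (mul_mem (sub_mem (one_mem _) htM) (sub_mem m3 m1))
    have hw1 : conj w₁ = r * conj w₂ := by
      rw [hr]
      field_simp
      linear_combination hrel
    have hr1 : 1 - r ≠ 0 := by
      intro h
      apply h12
      have h5 : conj w₁ = conj w₂ := by rw [hw1]; linear_combination (-conj w₂) * h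
      exact (starRingEnd ℂ).injective h5
    refine ⟨(μ₂ - μ₁ * r) / (1 - r), div_mem (sub_mem m2 (mul_mem m1 hrM)) (sub_mem (one_mem _) hrM), ?_⟩
    rw [mul_sub, e1, e2, map_sub, hw1]
    field_simp

theorem RT_smul (M : Subfield ℂ) (κ w : ℂ) (s : ℤ) (hs : s ≠ 0) (h : RT M κ ((s : ℂ) * w)) :
    RT M κ w := by
  unfold RT at h ⊢
  have hs' : (s : ℂ) ≠ 0 := by exact_mod_cast hs
  have h1 : κ * ((s : ℂ) * w) / conj ((s : ℂ) * w) = κ * w / conj w := by
    rw [map_mul, map_intCast]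
    rw [show κ * ((s : ℂ) * w) = (s : ℂ) * (κ * w) by ring, mul_div_mul_left _ _ hs']
  rwa [h1] at h

/-- splitting vectors are of the multiplier type -/
theorem RT_split (v : Fin d → ℂ) (hv : LinearIndependent ℚ v) (w₀ w : ℂ) (hw₀ : w₀ ≠ 0) (hw : w ≠ 0)
    (hs₀ : du v w₀ + dw v w₀ = d) (hs : du v w + dw v w = d) :
    RT (mulF (VV v)) (conj w₀ / w₀) w := by
  unfold RT
  rw [mem_mulF]
  intro x hx
  have h1 : sg w (sg w₀ x) = conj w₀ / w₀ * w / conj w * x := by
    unfold sg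
    rw [map_mul, map_div₀, Complex.conj_conj, Complex.conj_conj]
    ring
  rw [← h1]
  exact sg_mem v hv w hw hs _ (sg_mem v hv w₀ hw₀ hs₀ x hx)

/-- One of the directions `e_j`, `e_j + e_k` is not of the multiplier type. -/
theorem exists_dir (v : Fin d → ℂ) (hv : LinearIndependent ℚ v) (hex : NoField v) (w₀ : ℂ)
    (hw₀ : w₀ ≠ 0) (hw₀V : w₀ ∈ VV v) (hs₀ : du v w₀ + dw v w₀ = d) (s₀ : ℂ) (hs₀0 : s₀ ≠ 0)
    (hs₀V : s₀ ∈ VV v) (hs₀o : s₀ ∈ ort w₀) :
    (∃ j, ¬ RT (mulF (VV v)) (conj w₀ / w₀) (v j)) ∨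
      ∃ j k, j ≠ k ∧ ¬ RT (mulF (VV v)) (conj w₀ / w₀) (v j + v k) := by
  by_contra hcon
  push Not at hcon
  obtain ⟨ha, hb⟩ := hcon
  set M := mulF (VV v) with hM
  set κ := conj w₀ / w₀ with hκ
  have hv0 : ∀ j, v j ≠ 0 := fun j => hv.ne_zero j
  have hcv0 : ∀ j, conj (v j) ≠ 0 := fun j => by simpa using hv0 j
  have hsum0 : ∀ j k, j ≠ k → v j + v k ≠ 0 := by
    intro j k hjk h
    have h1 : zz v (Pi.single j 1 + Pi.single k 1) = 0 := by
      rw [zz_add]
      simp only [zz, Pi.single_apply]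
      simp [h]
    have h2 := zz_eq_zero v hv _ h1
    have h3 := congrFun h2 j
    simp [Pi.single_apply, hjk] at h3
  have hμ : ∀ j, ∃ μ ∈ M, κ * v j = μ * conj (v j) := fun j => (RT_iff M κ _ (hv0 j)).1 (ha j)
  choose μ hμM hμe using hμ
  have hdiff : ∀ j k, μ j ≠ μ k → v j / v k ∈ M := by
    intro j k hjk
    have hne : j ≠ k := by rintro rfl; exact hjk rfl
    obtain ⟨ν, hν, hνe⟩ := (RT_iff M κ _ (hsum0 j k hne)).1 (hb j k hne)
    rw [mul_add, hμe j, hμe k, map_add] at hνe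
    have hrel : (μ j - ν) * conj (v j) = (ν - μ k) * conj (v k) := by linear_combination hνe
    have hjν : μ j - ν ≠ 0 := by
      intro h
      rw [h, zero_mul] at hrel
      have h1 := (mul_eq_zero.1 hrel.symm).resolve_right (hcv0 k)
      apply hjk
      linear_combination h + h1
    have h1 : conj (v j) / conj (v k) = (ν - μ k) / (μ j - ν) := by
      rw [div_eq_div_iff (hcv0 k) hjν]
      linear_combination hrel
    have h2 : conj (v j / v k) ∈ M := by
      rw [map_div₀, h1]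
      exact div_mem (sub_mem hν (hμM k)) (sub_mem (hμM j) hν)
    have h3 := conj_mem_mulF v hv w₀ hw₀ hs₀ _ h2
    rwa [Complex.conj_conj] at h3
  by_cases hall : ∀ j k, μ j = μ k
  · -- all ratios equal: the span lies on one line
    have hw₀κ : κ * w₀ = conj w₀ := by rw [hκ]; field_simp
    obtain ⟨r, hr⟩ := ort_of_mem s₀ w₀ hw₀ hs₀o
    have hr0 : r ≠ 0 := by rintro rfl; apply hs₀0; rw [hr]; simp
    rcases isEmpty_or_nonempty (Fin d) with hE | ⟨⟨j₀⟩⟩
    · have : VV v = ⊥ := by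
        unfold VV
        rw [Set.range_eq_empty, Submodule.span_empty]
      rw [this, Submodule.mem_bot] at hw₀V
      exact hw₀ hw₀V
    · have hlin : ∀ x ∈ VV v, κ * x = μ j₀ * conj x := by
        intro x hx
        obtain ⟨q, rfl⟩ := (mem_VV_iff v x).1 hx
        rw [zq_apply, Finset.mul_sum, map_sum, Finset.mul_sum]
        refine Finset.sum_congr rfl fun j _ => ?_
        have hq : conj ((q j : ℂ)) = (q j : ℂ) := by
          have : ((q j : ℂ)) = ((q j : ℝ) : ℂ) := by push_cast; rfl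
          rw [this, Complex.conj_ofReal]
        rw [map_mul, hq]
        have := hμe j
        rw [hall j j₀] at this
        linear_combination (q j : ℂ) * this
      have hcw₀ : conj w₀ ≠ 0 := by simpa using hw₀
      have h1 := hlin w₀ hw₀V
      rw [hw₀κ] at h1
      have h2 : μ j₀ = 1 := by
        apply mul_right_cancel₀ hcw₀
        rw [← h1, one_mul]
      have h3 := hlin s₀ hs₀V
      rw [h2, one_mul, hr, map_mul, map_mul, Complex.conj_ofReal, Complex.conj_I] at h3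
      have h4 : (r : ℂ) * Complex.I * conj w₀ = 0 := by
        have h5 : κ * ((r : ℂ) * (Complex.I * w₀)) = (r : ℂ) * Complex.I * (κ * w₀) := by ring
        rw [h5, hw₀κ] at h3
        linear_combination (1 / 2 : ℂ) * h3
      have h5 : (r : ℂ) ≠ 0 := by exact_mod_cast hr0
      exact (mul_ne_zero (mul_ne_zero h5 Complex.I_ne_zero) hcw₀) h4
  · push Not at hall
    obtain ⟨j, k, hjk⟩ := hall
    have hl : ∀ l, v l / v k ∈ M := by
      intro l
      by_cases h : μ l = μ k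
      · have h1 : μ l ≠ μ j := by rw [h]; exact Ne.symm hjk
        have h2 := mul_mem (hdiff l j h1) (hdiff j k hjk)
        have h3 : v l / v j * (v j / v k) = v l / v k := by
          have := hv0 j
          field_simp
        rwa [h3] at h2
      · exact hdiff l k h
    refine hex M (v k) (fun m hm => conj_mem_mulF v hv w₀ hw₀ hs₀ m hm) ⟨v j / v k, hdiff j k hjk, ?_⟩ ?_
    · intro him
      apply hjk
      have h1 : v j / v k = ((v j / v k).re : ℂ) := Complex.ext (by simp) (by simp [him])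
      have h2 : v j = ((v j / v k).re : ℂ) * v k := by
        rw [← h1]; have := hv0 k; field_simp
      have h3 := hμe j
      rw [h2, map_mul, Complex.conj_ofReal] at h3
      have h4 : ((v j / v k).re : ℂ) ≠ 0 := by
        intro h; rw [h, zero_mul] at h2; exact hv0 j h2
      have h5 : μ k * conj (v k) = μ j * conj (v k) := by
        rw [← hμe k]
        apply mul_left_cancel₀ h4
        linear_combination h3
      exact (mul_right_cancel₀ (hcv0 k) h5).symm
    · apply Set.eq_of_subset_of_subset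
      · intro x hx
        obtain ⟨q, rfl⟩ := (mem_VV_iff v x).1 hx
        refine ⟨∑ l, (q l : ℂ) * (v l / v k), ?_, ?_⟩
        · exact sum_mem fun l _ => mul_mem (SubfieldClass.ratCast_mem M (q l)) (hl l)
        · show v k * ∑ l, (q l : ℂ) * (v l / v k) = zq v q
          rw [zq_apply, Finset.mul_sum]
          refine Finset.sum_congr rfl fun l _ => ?_
          have := hv0 k
          field_simp
      · rintro x ⟨m, hm, rfl⟩
        show v k * m ∈ VV v
        rw [mul_comm]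
        exact (mem_mulF _ _).1 hm (v k) (Submodule.subset_span ⟨k, rfl⟩)

/-- integer vectors of the box with one coordinate zero -/
theorem card_slice (H : ℕ) (j : Fin d) (S : Finset (Fin d → ℤ)) (hS : ∀ c ∈ S, nn c ≤ H ∧ c j = 0) :
    S.card ≤ (2 * H + 1) ^ (d - 1) := by
  classical
  set F : Finset (Fin d → ℤ) := Fintype.piFinset
    (fun i => if i = j then ({0} : Finset ℤ) else Finset.Icc (-(H : ℤ)) H) with hF
  have h1 : S ⊆ F := by
    intro c hc
    obtain ⟨h2, h3⟩ := hS c hc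
    rw [nn_le_iff] at h2
    rw [hF, Fintype.mem_piFinset]
    intro i
    by_cases h : i = j
    · rw [if_pos h, h, h3]; simp
    · rw [if_neg h, Finset.mem_Icc]
      exact abs_le.1 (h2 i)
  have h2 : F.card = (2 * H + 1) ^ (d - 1) := by
    rw [hF, Fintype.card_piFinset]
    have h3 : ∀ i, (if i = j then ({0} : Finset ℤ) else Finset.Icc (-(H : ℤ)) H).card =
        if i = j then 1 else (2 * H + 1) := by
      intro i
      by_cases h : i = j
      · simp [h]
      · simp only [h, if_false, Int.card_Icc]; omega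
    rw [Finset.prod_congr rfl fun i _ => h3 i, Finset.prod_ite, Finset.prod_const_one, one_mul,
      Finset.prod_const]
    congr 1
    rw [Finset.filter_ne', Finset.card_erase_of_mem (Finset.mem_univ _), Finset.card_univ,
      Fintype.card_fin]
  rw [← h2]
  exact Finset.card_le_card h1

/-- Few splitting vectors, uniformly. -/
theorem TT_unif (v : Fin d → ℂ) (hv : LinearIndependent ℚ v) (hex : NoField v) (h : ℕ) (hh : 1 ≤ h) :
    ((TT v h).card : ℝ) ≤ 2 * 5 ^ (d - 1) * (h : ℝ) ^ (d - 1) := by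
  classical
  rcases (TT v h).eq_empty_or_nonempty with hE | ⟨c₀, hc₀⟩
  · rw [hE, Finset.card_empty]; push_cast; positivity
  have hTm : ∀ c ∈ TT v h, nn c ≤ h ∧ c ≠ 0 ∧ du v (zz v c) + dw v (zz v c) = d ∧
      ∃ b : Fin d → ℤ, b ≠ 0 ∧ zz v b ∈ ort (zz v c) := by
    intro c hc
    unfold TT at hc
    rw [Finset.mem_filter, mem_bx] at hc
    exact hc
  obtain ⟨-, hc₀0, hs₀, b₀, hb₀, hb₀o⟩ := hTm c₀ hc₀
  set w₀ := zz v c₀ with hw₀d
  have hw₀ : w₀ ≠ 0 := fun h => hc₀0 (zz_eq_zero v hv c₀ h)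
  have hs₀0 : zz v b₀ ≠ 0 := fun h => hb₀ (zz_eq_zero v hv b₀ h)
  have hdir := exists_dir v hv hex w₀ hw₀ (zz_mem v c₀) hs₀ (zz v b₀) hs₀0 (zz_mem v b₀) hb₀o
  obtain ⟨b, j, hbj, hbn, hbR⟩ : ∃ (b : Fin d → ℤ) (j : Fin d), b j = 1 ∧ nn b ≤ 1 ∧
      ¬ RT (mulF (VV v)) (conj w₀ / w₀) (zz v b) := by
    have hsingle : ∀ j, zz v (Pi.single j 1) = v j := by
      intro j
      simp [zz, Pi.single_apply]
    rcases hdir with ⟨j, hj⟩ | ⟨j, k, hjk, hj⟩
    · refine ⟨Pi.single j 1, j, by simp, ?_, by rw [hsingle]; exact hj⟩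
      rw [nn_le_iff]
      intro i
      by_cases hi : i = j
      · subst hi; simp
      · simp [Pi.single_apply, hi]
    · refine ⟨Pi.single j 1 + Pi.single k 1, j, by simp [Pi.single_apply, hjk], ?_, by
        rw [zz_add, hsingle, hsingle]; exact hj⟩
      rw [nn_le_iff]
      intro i
      rw [Pi.add_apply]
      by_cases hi : i = j
      · subst hi; simp [Pi.single_apply, hjk]
      · by_cases hi' : i = k
        · subst hi'; simp [Pi.single_apply, hi]
        · simp [Pi.single_apply, hi, hi']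
  set π : (Fin d → ℤ) → (Fin d → ℤ) := fun c => c - (c j) • b with hπ
  have hfib : ∀ a ∈ (TT v h).image π, ((TT v h).filter (fun c => π c = a)).card ≤ 2 := by
    intro a _
    by_contra hcon
    push Not at hcon
    obtain ⟨c₁, h1, c₂, h2, c₃, h3, h12, h13, h23⟩ := Finset.two_lt_card.1 hcon
    rw [Finset.mem_filter] at h1 h2 h3
    have hform : ∀ c, π c = a → zz v c = zz v a + ((c j : ℤ) : ℂ) * zz v b := by
      intro c hc
      have h4 : c = a + (c j) • b := by rw [← hc, hπ]; simp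
      have h5 : zz v ((c j) • b) = ((c j : ℤ) : ℂ) * zz v b := by
        simp only [zz, Pi.smul_apply, smul_eq_mul, Finset.mul_sum]
        refine Finset.sum_congr rfl fun i _ => ?_
        push_cast; ring
      calc zz v c = zz v (a + (c j) • b) := by rw [← h4]
        _ = _ := by rw [zz_add, h5]
    have hcj : ∀ c c', π c = a → π c' = a → c ≠ c' → c j ≠ c' j := by
      intro c c' hc hc' hne heq
      apply hne
      have h4 : c = a + (c j) • b := by rw [← hc, hπ]; simp
      have h5 : c' = a + (c' j) • b := by rw [← hc', hπ]; simp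
      rw [h4, h5, heq]
    have s12 := hcj c₁ c₂ h1.2 h2.2 h12
    have s13 := hcj c₁ c₃ h1.2 h3.2 h13
    have s23 := hcj c₂ c₃ h2.2 h3.2 h23
    obtain ⟨-, n1, p1, -⟩ := hTm c₁ h1.1
    obtain ⟨-, n2, p2, -⟩ := hTm c₂ h2.1
    obtain ⟨-, n3, p3, -⟩ := hTm c₃ h3.1
    have z1 : zz v c₁ ≠ 0 := fun h => n1 (zz_eq_zero v hv c₁ h)
    have z2 : zz v c₂ ≠ 0 := fun h => n2 (zz_eq_zero v hv c₂ h)
    have z3 : zz v c₃ ≠ 0 := fun h => n3 (zz_eq_zero v hv c₃ h)
    have q12 : ((c₂ j : ℚ) - c₁ j) ≠ 0 := by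
      intro h
      apply s12
      have : (c₂ j : ℚ) = c₁ j := by linarith
      exact_mod_cast this.symm
    have q12' : ((c₂ j : ℂ) - c₁ j) ≠ 0 := by exact_mod_cast q12
    have hR := line3 (mulF (VV v)) (conj w₀ / w₀) (zz v c₁) (zz v c₂) (zz v c₃)
      (((c₃ j : ℚ) - c₁ j) / ((c₂ j : ℚ) - c₁ j))
      (by
        apply div_ne_zero _ q12
        intro h
        apply s13
        have : (c₃ j : ℚ) = c₁ j := by linarith
        exact_mod_cast this.symm)
      (by
        intro h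
        rw [div_eq_one_iff_eq q12] at h
        apply s23
        have : (c₃ j : ℚ) = c₂ j := by linarith
        exact_mod_cast this.symm)
      z1 z2 z3
      (by
        intro h
        apply h12
        have h4 : zz v (c₁ - c₂) = 0 := by rw [zz_sub, h, sub_self]
        exact sub_eq_zero.1 (zz_eq_zero v hv _ h4))
      (by
        rw [hform c₁ h1.2, hform c₂ h2.2, hform c₃ h3.2]
        push_cast
        field_simp
        ring)
      (RT_split v hv w₀ _ hw₀ z1 hs₀ p1) (RT_split v hv w₀ _ hw₀ z2 hs₀ p2)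
      (RT_split v hv w₀ _ hw₀ z3 hs₀ p3)
    apply hbR
    apply RT_smul _ _ _ (c₂ j - c₁ j) (sub_ne_zero.2 (Ne.symm s12))
    have h6 : (((c₂ j - c₁ j : ℤ)) : ℂ) * zz v b = zz v c₂ - zz v c₁ := by
      rw [hform c₁ h1.2, hform c₂ h2.2]; push_cast; ring
    rw [h6]
    exact hR
  have h1 := Finset.card_le_mul_card_image (TT v h) 2 hfib
  have h2 : ((TT v h).image π).card ≤ (2 * (2 * h) + 1) ^ (d - 1) := by
    apply card_slice (2 * h) j
    intro c hc
    rw [Finset.mem_image] at hc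
    obtain ⟨c', hc', rfl⟩ := hc
    have hn := (hTm c' hc').1
    constructor
    · rw [nn_le_iff]
      intro i
      have e1 := (nn_le_iff c' h).1 hn i
      have e2 := (nn_le_iff c' h).1 hn j
      have e3 := (nn_le_iff b 1).1 hbn i
      have e4 : π c' i = c' i - c' j * b i := by simp [hπ]
      rw [e4]
      calc |c' i - c' j * b i| ≤ |c' i| + |c' j * b i| := abs_sub _ _
        _ ≤ h + h * 1 := by
            rw [abs_mul]
            apply add_le_add e1
            apply mul_le_mul e2 (by exact_mod_cast e3) (abs_nonneg _) (by positivity)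
        _ = _ := by push_cast; ring
    · simp [hπ, hbj]
  have h3 : (TT v h).card ≤ 2 * (2 * (2 * h) + 1) ^ (d - 1) :=
    h1.trans (Nat.mul_le_mul_left _ h2)
  have h4 : (2 * (2 * h) + 1) ^ (d - 1) ≤ (5 * h) ^ (d - 1) := Nat.pow_le_pow_left (by omega) _
  rw [mul_pow] at h4
  have h5 : (TT v h).card ≤ 2 * (5 ^ (d - 1) * h ^ (d - 1)) := h3.trans (Nat.mul_le_mul_left _ h4)
  rw [mul_assoc]
  exact_mod_cast h5

/-- `EE_lin` with a constant depending on the rank and on `C₀` only -/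
theorem EE_lin_unif (d : ℕ) (C₀ : ℝ) (hC₀ : 0 ≤ C₀) :
    ∃ C : ℝ, 0 < C ∧ ∀ v : Fin d → ℂ, LinearIndependent ℚ v →
      (∀ h : ℕ, 1 ≤ h → ((TT v h).card : ℝ) ≤ C₀ * (h : ℝ) ^ (d - 1)) →
      ∀ H : ℕ, 1 ≤ H → (EE v H : ℝ) ≤ C * (H : ℝ) ^ d := by
  classical
  rcases Nat.eq_zero_or_pos d with hd | hd
  · subst hd
    refine ⟨1, one_pos, ?_⟩
    intro v hv _ H _
    have h1 : EE v H ≤ (bx 0 H ×ˢ bx 0 H).card := by
      unfold EE; exact Finset.card_filter_le _ _
    rw [Finset.card_product, card_bx] at h1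
    simp at h1
    simp
    exact_mod_cast h1
  obtain ⟨e, rfl⟩ : ∃ e, d = e + 1 := ⟨d - 1, by omega⟩
  refine ⟨2 * 3 ^ (e + 1) + 2 * (3 ^ e * (3 ^ (e + 1) * (1 + e)) + 3 ^ (e + 1) * (C₀ * (1 + (e + 1) * 2))),
    by positivity, ?_⟩
  intro v hv hT H hH
  have hH' : (1 : ℝ) ≤ H := by exact_mod_cast hH
  have h1 := EE_le v hv H hH
  set TH := TT v H with hTH
  have hsub : RR v H ⊆ (bx (e + 1) H).filter (fun c => 1 ≤ nn c ∧ nn c ≤ H) := by
    intro c hc
    unfold RR at hc
    rw [Finset.mem_filter] at hc ⊢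
    exact ⟨hc.1, nn_pos c hc.2.1.1, (mem_bx H c).1 hc.1⟩
  have h2 : ∑ c ∈ RR v H, (3 * H / (nn c : ℝ)) ^ (du v (zz v c) + dw v (zz v c)) ≤
      ∑ c ∈ (bx (e + 1) H).filter (fun c => 1 ≤ nn c ∧ nn c ≤ H), (3 * H / (nn c : ℝ)) ^ e +
      ∑ c ∈ TH.filter (fun c => 1 ≤ nn c ∧ nn c ≤ H), (3 * H / (nn c : ℝ)) ^ (e + 1) := by
    rw [← Finset.sum_filter_add_sum_filter_not (RR v H) (fun c => du v (zz v c) + dw v (zz v c) ≤ e)]
    apply add_le_add
    · refine le_trans (Finset.sum_le_sum (f := _)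
        (g := fun c => (3 * H / (nn c : ℝ)) ^ e) fun c hc => ?_)
        (Finset.sum_le_sum_of_subset_of_nonneg ((Finset.filter_subset _ _).trans hsub)
          (fun _ _ _ => by positivity))
      rw [Finset.mem_filter] at hc
      have hc2 := hsub hc.1
      rw [Finset.mem_filter] at hc2
      exact pow_le_pow_right₀ (one_le_base hc2.2.1 hc2.2.2) hc.2
    · refine le_trans (Finset.sum_le_sum (f := _)
        (g := fun c => (3 * H / (nn c : ℝ)) ^ (e + 1)) fun c hc => ?_)
        (Finset.sum_le_sum_of_subset_of_nonneg ?_ (fun _ _ _ => by positivity))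
      · rw [Finset.mem_filter] at hc
        have hc2 := hsub hc.1
        rw [Finset.mem_filter] at hc2
        have hc0 : c ≠ 0 := by
          rintro rfl; rw [nn_zero] at hc2; omega
        exact pow_le_pow_right₀ (one_le_base hc2.2.1 hc2.2.2)
          (du_add_dw v hv _ (fun h => hc0 (zz_eq_zero v hv c h)))
      · intro c hc
        rw [Finset.mem_filter] at hc
        have hc2 := hsub hc.1
        have hc3 := hc.1
        unfold RR at hc3
        rw [Finset.mem_filter] at hc2 hc3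
        have hc0 : c ≠ 0 := hc3.2.1.1
        have h9 := du_add_dw v hv _ (fun h => hc0 (zz_eq_zero v hv c h))
        rw [Finset.mem_filter]
        refine ⟨?_, hc2.2⟩
        rw [hTH]; unfold TT
        rw [Finset.mem_filter]
        exact ⟨hc2.1, hc0, by omega, hc3.2.2⟩
  have h3 := sum_gen (bx (e + 1) H) (3 ^ (e + 1)) (e + 1) e H hH (fun k hk _ => bx_count H k hk)
  have h3' := sum_gen TH C₀ e (e + 1) H hH (by
    intro k hk hkH
    have hs : TH.filter (fun c => 1 ≤ nn c ∧ nn c ≤ k) ⊆ TT v k := by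
      intro c hc
      rw [hTH] at hc
      unfold TT at hc ⊢
      rw [Finset.mem_filter, Finset.mem_filter] at hc
      rw [Finset.mem_filter, mem_bx]
      exact ⟨hc.2.2, hc.1.2⟩
    have h10 : ((TH.filter (fun c => 1 ≤ nn c ∧ nn c ≤ k)).card : ℝ) ≤ (TT v k).card := by
      exact_mod_cast Finset.card_le_card hs
    exact h10.trans (hT k hk))
  have h4 : ∑ k ∈ Finset.Ico 1 H, ((k : ℝ) ^ (e + 1) / (k : ℝ) ^ (e + 1)) ≤ H := by
    have : ∑ k ∈ Finset.Ico 1 H, ((k : ℝ) ^ (e + 1) / (k : ℝ) ^ (e + 1)) =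
        ∑ k ∈ Finset.Ico 1 H, (1 : ℝ) := by
      refine Finset.sum_congr rfl fun k hk => ?_
      rw [Finset.mem_Ico] at hk
      have hk' : (0 : ℝ) < k := by exact_mod_cast hk.1
      exact div_self (by positivity)
    rw [this]
    simp
  have h4' : ∑ k ∈ Finset.Ico 1 H, ((k : ℝ) ^ e / (k : ℝ) ^ (e + 1 + 1)) ≤ 2 := by
    refine le_trans (le_of_eq ?_) (sq_sum_le H)
    refine Finset.sum_congr rfl fun k hk => ?_
    rw [Finset.mem_Ico] at hk
    have hk' : (0 : ℝ) < k := by exact_mod_cast hk.1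
    rw [pow_succ, pow_succ]; field_simp
  have h5 : (H : ℝ) ^ (e + 1) / (H : ℝ) ^ e = H := by rw [pow_succ]; field_simp
  have h5' : (H : ℝ) ^ e / (H : ℝ) ^ (e + 1) ≤ 1 := by
    rw [div_le_one (by positivity)]
    exact pow_le_pow_right₀ hH' (by omega)
  rw [h5] at h3
  have h6 := zero_term (e + 1) H hH
  have h7 : (3 * (H : ℝ)) ^ e * (3 ^ (e + 1) * (H : ℝ) + 3 ^ (e + 1) * e *
        ∑ k ∈ Finset.Ico 1 H, ((k : ℝ) ^ (e + 1) / (k : ℝ) ^ (e + 1))) ≤
      (3 * (H : ℝ)) ^ e * (3 ^ (e + 1) * (H : ℝ) + 3 ^ (e + 1) * e * H) := by gcongr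
  have h7' : (3 * (H : ℝ)) ^ (e + 1) * (C₀ * ((H : ℝ) ^ e / (H : ℝ) ^ (e + 1)) + C₀ * ((e + 1 : ℕ) : ℝ) *
        ∑ k ∈ Finset.Ico 1 H, ((k : ℝ) ^ e / (k : ℝ) ^ (e + 1 + 1))) ≤
      (3 * (H : ℝ)) ^ (e + 1) * (C₀ * 1 + C₀ * ((e + 1 : ℕ) : ℝ) * 2) := by gcongr
  have h8 : (EE v H : ℝ) ≤ 2 * (3 ^ (e + 1) * (H : ℝ) ^ (e + 1)) +
      2 * ((3 * (H : ℝ)) ^ e * (3 ^ (e + 1) * (H : ℝ) + 3 ^ (e + 1) * e * H) +
        (3 * (H : ℝ)) ^ (e + 1) * (C₀ * 1 + C₀ * ((e + 1 : ℕ) : ℝ) * 2)) := by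
    linarith
  refine h8.trans (le_of_eq ?_)
  rw [mul_pow, mul_pow]
  push_cast
  ring

/-- Every point of a box sees linearly many distances, with a constant depending only on the rank,
outside the exceptional case. -/
theorem gap_pinned_unif (d : ℕ) :
    ∃ c : ℝ, 0 < c ∧ ∀ v : Fin d → ℂ, LinearIndependent ℚ v → NoField v →
      ∀ H : ℕ, 1 ≤ H → ∀ (x₀ t x : ℂ) (P : Finset ℂ), 2 ≤ P.card →
      (∀ y ∈ insert x P, ∃ a : Fin d → ℤ, nn a ≤ H ∧ y = x₀ + t * zz v a) →
      c * (P.card : ℝ) ^ 2 / (H : ℝ) ^ d ≤ (((P.erase x).image (fun y => dist x y)).card : ℝ) := by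
  classical
  obtain ⟨C, hC, hE'⟩ := EE_lin_unif d (2 * 5 ^ (d - 1)) (by positivity)
  refine ⟨1 / (4 * (C * 4 ^ d)), by positivity, ?_⟩
  intro v hv hex H hH x₀ t x P hP hbox
  have hE := hE' v hv (fun h hh => TT_unif v hv hex h hh)
  have hH' : (1 : ℝ) ≤ H := by exact_mod_cast hH
  have ht : t ≠ 0 := by
    rintro rfl
    obtain ⟨y, hy, y', hy', hne⟩ := Finset.one_lt_card.1 (by omega : 1 < P.card)
    obtain ⟨a, -, ha⟩ := hbox y (Finset.mem_insert_of_mem hy)
    obtain ⟨a', -, ha'⟩ := hbox y' (Finset.mem_insert_of_mem hy')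
    apply hne
    rw [ha, ha']; ring
  set S := P.erase x with hS
  have hSc : (P.card : ℝ) / 2 ≤ S.card := by
    have h1 : P.card ≤ S.card + 1 := by
      rw [hS]
      have := Finset.pred_card_le_card_erase (s := P) (a := x)
      omega
    have h2 : P.card ≤ 2 * S.card := by omega
    have h3 : (P.card : ℝ) ≤ 2 * S.card := by exact_mod_cast h2
    linarith
  have h1 := card_sq_le S (fun y => dist x y)
  have h2 := pairs_le v H x₀ t x ht S (hbox x (Finset.mem_insert_self _ _))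
    (fun y hy => hbox y (Finset.mem_insert_of_mem (Finset.mem_of_mem_erase hy)))
  have h3 := hE (4 * H) (by omega)
  have h2' : (((S ×ˢ S).filter (fun p => dist x p.1 = dist x p.2)).card : ℝ) ≤ C * (4 * H) ^ d := by
    refine le_trans ?_ (h3.trans (le_of_eq ?_))
    · exact_mod_cast h2
    · push_cast; ring
  set D : ℝ := ((S.image (fun y => dist x y)).card : ℝ) with hD
  have hD0 : 0 ≤ D := by positivity
  have h4 : (S.card : ℝ) ^ 2 ≤ D * (C * (4 * H) ^ d) := h1.trans (by gcongr)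
  have h5 : ((P.card : ℝ) / 2) ^ 2 ≤ D * (C * (4 * H) ^ d) :=
    (pow_le_pow_left₀ (by positivity) hSc 2).trans h4
  rw [div_mul_eq_mul_div, one_mul, div_div, div_le_iff₀ (by positivity)]
  rw [mul_pow] at h5
  nlinarith [h5]

end Pool.Agent.GAPD
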